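import Pool.Agent.Helper57.LH.MainT

namespace Pool.Agent.Helper57.US

open Complex Set MeasureTheory Filter Topology
open Pool.Agent.Helper57.Zeta
open Pool.Agent.Helper57.LH

/-- telescoping bound -/
lemma sum_inv_add_sq {w : ℝ} (hw : 1 ≤ w) (K : ℕ) : ∑ n ∈ Finset.range K, 1 / ((n:ℝ) ^ 2 + w ^ 2) ≤ 4 / w := by
  have h1 : ∀ n : ℕ, 1 / ((n:ℝ) ^ 2 + w ^ 2) ≤ 2 * (1 / ((n:ℝ) + w - 1/2) - 1 / (((n + 1 : ℕ) : ℝ) + w - 1/2)) := by
    intro n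
    have hn : (0:ℝ) ≤ n := Nat.cast_nonneg n
    have ha : 0 < (n:ℝ) + w - 1/2 := by linarith
    have hb : 0 < ((n + 1 : ℕ) : ℝ) + w - 1/2 := by push_cast; linarith
    have e : 2 * (1 / ((n:ℝ) + w - 1/2) - 1 / (((n + 1 : ℕ) : ℝ) + w - 1/2)) = 2 / (((n:ℝ) + w - 1/2) * (((n + 1 : ℕ) : ℝ) + w - 1/2)) := by
      have e0 : ((n + 1 : ℕ) : ℝ) + w - 1/2 = ((n:ℝ) + w - 1/2) + 1 := by push_cast; ring
      rw [e0] at hb ⊢
      generalize (n:ℝ) + w - 1/2 = p at ha hb ⊢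
      field_simp
      ring
    rw [e, div_le_div_iff₀ (by positivity) (by positivity)]
    push_cast
    nlinarith [sq_nonneg ((n:ℝ) - w)]
  have h2 : ∑ n ∈ Finset.range K, (1 / ((n:ℝ) + w - 1/2) - 1 / (((n + 1 : ℕ) : ℝ) + w - 1/2)) = 1 / (w - 1/2) - 1 / ((K:ℝ) + w - 1/2) := by
    have := Finset.sum_range_sub' (fun n : ℕ => 1 / ((n:ℝ) + w - 1/2)) K
    simp only [Nat.cast_zero, zero_add] at this
    exact this
  have hK : 0 ≤ 1 / ((K:ℝ) + w - 1/2) := by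
    have : (0:ℝ) ≤ K := Nat.cast_nonneg K
    apply one_div_nonneg.mpr; linarith
  calc ∑ n ∈ Finset.range K, 1 / ((n:ℝ) ^ 2 + w ^ 2) ≤ ∑ n ∈ Finset.range K, 2 * (1 / ((n:ℝ) + w - 1/2) - 1 / (((n + 1 : ℕ) : ℝ) + w - 1/2)) :=
        Finset.sum_le_sum fun n _ => h1 n
    _ = 2 * (1 / (w - 1/2) - 1 / ((K:ℝ) + w - 1/2)) := by rw [← Finset.mul_sum, h2]
    _ ≤ 2 * (1 / (w - 1/2)) := by linarith
    _ ≤ 4 / w := by
        rw [mul_one_div, div_le_div_iff₀ (by linarith) (by linarith)]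
        linarith

/-- one step of the comparison with the logarithm -/
lemma log_step {w : ℝ} (hw : 0 < w) (n : ℕ) :
    |(1 / 2 * Real.log (((n + 1 : ℕ) : ℝ) ^ 2 + w ^ 2) - 1 / 2 * Real.log ((n:ℝ) ^ 2 + w ^ 2)) - ((n:ℝ) + 1) / (((n:ℝ) + 1) ^ 2 + w ^ 2)| ≤ 1 / ((n:ℝ) ^ 2 + w ^ 2) := by
  have hn : (0:ℝ) ≤ n := Nat.cast_nonneg n
  have hder : ∀ x : ℝ, HasDerivAt (fun x : ℝ => 1 / 2 * Real.log (x ^ 2 + w ^ 2)) (x / (x ^ 2 + w ^ 2)) x := by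
    intro x
    have h1 : HasDerivAt (fun x : ℝ => x ^ 2 + w ^ 2) (2 * x) x := by
      have := (hasDerivAt_pow 2 x).add_const (w ^ 2)
      simpa using this
    have h2 := (h1.log (by positivity)).const_mul (1/2)
    refine h2.congr_deriv ?_
    field_simp
  obtain ⟨ξ, hξ, hξ2⟩ := exists_hasDerivAt_eq_slope (fun x : ℝ => 1 / 2 * Real.log (x ^ 2 + w ^ 2)) (fun x => x / (x ^ 2 + w ^ 2))
    (show (n:ℝ) < (n:ℝ) + 1 by linarith) (fun x _ => (hder x).continuousAt.continuousWithinAt) (fun x _ => hder x)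
  rw [show (n:ℝ) + 1 - n = 1 by ring, div_one] at hξ2
  push_cast
  rw [← hξ2]
  set k := (n:ℝ) + 1 with hk
  have hk0 : 0 < k := by rw [hk]; linarith
  have hξ1 : (n:ℝ) < ξ := hξ.1
  have hξk : ξ < k := hξ.2
  have e : ξ / (ξ ^ 2 + w ^ 2) - k / (k ^ 2 + w ^ 2) = (k - ξ) * (ξ * k - w ^ 2) / ((ξ ^ 2 + w ^ 2) * (k ^ 2 + w ^ 2)) := by
    field_simp
    ring
  rw [e, abs_div, abs_mul, abs_of_pos (by positivity : 0 < (ξ ^ 2 + w ^ 2) * (k ^ 2 + w ^ 2)), abs_of_pos (by linarith : 0 < k - ξ)]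
  have h3 : |ξ * k - w ^ 2| ≤ k ^ 2 + w ^ 2 := by
    rw [abs_le]
    constructor <;> nlinarith [sq_nonneg w, mul_nonneg (by linarith : 0 ≤ ξ) hk0.le]
  have h4 : (n:ℝ) ^ 2 + w ^ 2 ≤ ξ ^ 2 + w ^ 2 := by nlinarith
  have hn2 : 0 < (n:ℝ) ^ 2 + w ^ 2 := by positivity
  calc (k - ξ) * |ξ * k - w ^ 2| / ((ξ ^ 2 + w ^ 2) * (k ^ 2 + w ^ 2)) ≤ 1 * (k ^ 2 + w ^ 2) / (((n:ℝ) ^ 2 + w ^ 2) * (k ^ 2 + w ^ 2)) := by
        gcongr
        linarith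
    _ = _ := by field_simp

/-- partial sums -/
lemma Dn_partial {t : ℝ} (ht : 2 ≤ t) (K : ℕ) :
    |∑ n ∈ Finset.range K, Dn n t - ((harmonic K : ℝ) - 1 / 2 * Real.log ((K:ℝ) ^ 2 + (t / 2) ^ 2) + Real.log (t / 2))| ≤ 8 / t := by
  set w := t / 2 with hw
  have hw1 : 1 ≤ w := by rw [hw]; linarith
  have hw0 : 0 < w := by linarith
  have h1 : ∀ n : ℕ, Dn n t = 1 / ((n:ℝ) + 1) - ((n:ℝ) + 1) / (((n:ℝ) + 1) ^ 2 + w ^ 2) := by
    intro n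
    have hn : (0:ℝ) ≤ n := Nat.cast_nonneg n
    have : t = 2 * w := by rw [hw]; ring
    unfold Dn
    rw [this]
    have e : 2 * (2 * ((n:ℝ) + 1) / ((2 * ((n:ℝ) + 1)) ^ 2 + (2 * w) ^ 2)) = ((n:ℝ) + 1) / (((n:ℝ) + 1) ^ 2 + w ^ 2) := by
      field_simp
    rw [e]
  have h2 : (harmonic K : ℝ) = ∑ n ∈ Finset.range K, 1 / ((n:ℝ) + 1) := by
    unfold harmonic
    push_cast
    refine Finset.sum_congr rfl fun n _ => ?_
    rw [one_div]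
  have h3 : 1 / 2 * Real.log ((K:ℝ) ^ 2 + w ^ 2) - Real.log w = ∑ n ∈ Finset.range K, (1 / 2 * Real.log (((n + 1 : ℕ) : ℝ) ^ 2 + w ^ 2) - 1 / 2 * Real.log ((n:ℝ) ^ 2 + w ^ 2)) := by
    rw [Finset.sum_range_sub (fun n : ℕ => 1 / 2 * Real.log ((n:ℝ) ^ 2 + w ^ 2)) K]
    have : 1 / 2 * Real.log (((0:ℕ):ℝ) ^ 2 + w ^ 2) = Real.log w := by
      rw [Nat.cast_zero, zero_pow two_ne_zero, zero_add, Real.log_pow]
      push_cast
      ring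
    rw [this]
  have e : ∑ n ∈ Finset.range K, Dn n t - ((harmonic K : ℝ) - 1 / 2 * Real.log ((K:ℝ) ^ 2 + w ^ 2) + Real.log w) =
      ∑ n ∈ Finset.range K, ((1 / 2 * Real.log (((n + 1 : ℕ) : ℝ) ^ 2 + w ^ 2) - 1 / 2 * Real.log ((n:ℝ) ^ 2 + w ^ 2)) - ((n:ℝ) + 1) / (((n:ℝ) + 1) ^ 2 + w ^ 2)) := by
    rw [Finset.sum_sub_distrib, ← h3, h2]
    simp_rw [h1]
    rw [Finset.sum_sub_distrib]
    ring
  rw [e]
  refine (Finset.abs_sum_le_sum_abs _ _).trans ?_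
  refine (Finset.sum_le_sum fun n _ => log_step hw0 n).trans ?_
  refine (sum_inv_add_sq hw1 K).trans (le_of_eq ?_)
  rw [hw]
  field_simp
  norm_num

lemma lim_log {w : ℝ} (hw : 0 < w) : Tendsto (fun K : ℕ => Real.log K - 1 / 2 * Real.log ((K:ℝ) ^ 2 + w ^ 2)) atTop (𝓝 0) := by
  have h1 : Tendsto (fun K : ℕ => 1 / 2 * Real.log (1 + (w / (K:ℝ)) ^ 2)) atTop (𝓝 0) := by
    have h2 : Tendsto (fun K : ℕ => w / (K:ℝ)) atTop (𝓝 0) := tendsto_const_div_atTop_nhds_zero_nat w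
    have h3 : Tendsto (fun K : ℕ => 1 + (w / (K:ℝ)) ^ 2) atTop (𝓝 (1 + 0 ^ 2)) := (h2.pow 2).const_add 1
    have h4 := (h3.log (by norm_num)).const_mul (1 / 2 : ℝ)
    simpa using h4
  have h5 := h1.neg
  rw [neg_zero] at h5
  refine h5.congr' ?_
  filter_upwards [eventually_ge_atTop 1] with K hK
  have hK0 : (0:ℝ) < K := by exact_mod_cast hK
  have e : (K:ℝ) ^ 2 + w ^ 2 = K ^ 2 * (1 + (w / (K:ℝ)) ^ 2) := by field_simp
  rw [e, Real.log_mul (by positivity) (by positivity), Real.log_pow]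
  push_cast
  ring

/-- the digamma sum, precisely -/
lemma Dn_sum_asym {t : ℝ} (ht : 2 ≤ t) : |∑' n, Dn n t - (Real.eulerMascheroniConstant + Real.log (t / 2))| ≤ 8 / t := by
  have h1 : Tendsto (fun K : ℕ => ∑ n ∈ Finset.range K, Dn n t) atTop (𝓝 (∑' n, Dn n t)) := (Dn_summable t).hasSum.tendsto_sum_nat
  have h2 := Real.tendsto_harmonic_sub_log
  have h3 := lim_log (show 0 < t / 2 by linarith)
  have h4 : Tendsto (fun K : ℕ => (harmonic K : ℝ) - 1 / 2 * Real.log ((K:ℝ) ^ 2 + (t / 2) ^ 2) + Real.log (t / 2)) atTop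
      (𝓝 (Real.eulerMascheroniConstant + Real.log (t / 2))) := by
    have h5 := (h2.add h3).add_const (Real.log (t / 2))
    rw [add_zero] at h5
    refine h5.congr fun K => ?_
    ring
  have h6 := (h1.sub h4).abs
  exact le_of_tendsto' h6 (fun K => Dn_partial ht K)

/-- difference of the two main sums, termwise, sharp form -/
lemma term_diff2 {t : ℝ} (ht : 1 ≤ t) (n : ℕ) :
    |(1 / ((n:ℝ) + 1) - 2 * (JJ 1 ((3 / 2 - 2 * ((n:ℝ) + 1) : ℝ) + t * I)).re) - Dn n t| ≤ 7 * (1 / ((n:ℝ) ^ 2 + t ^ 2)) := by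
  have hX0 : (0:ℝ) < 1 := one_pos
  have hn0 : (0:ℝ) ≤ n := Nat.cast_nonneg n
  set b : ℝ := 2 * ((n:ℝ) + 1) - 3 / 2 with hb
  have hb0 : 0 < b := by rw [hb]; linarith
  have hz : (((3 / 2 - 2 * ((n:ℝ) + 1) : ℝ) : ℂ) + t * I) = ((-b : ℝ) : ℂ) + t * I := by
    congr 2; rw [hb]; ring
  rw [hz]
  have hz0 : ((-b : ℝ) : ℂ) + t * I ≠ 0 := z_ne (by linarith) t
  rw [JJ_eq hX0 hz0, Complex.add_re, Complex.neg_re, one_div, one_div, Complex.inv_re, normSq_z]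
  have e1 : (((-b : ℝ) : ℂ) + t * I).re = -b := by simp
  rw [e1]
  set q := ((cexp ((((-b : ℝ) : ℂ) + t * I) * (1:ℝ)) - 1) / ((1:ℝ) * (((-b : ℝ) : ℂ) + t * I) ^ 2)).re with hq
  have hq1 : |q| ≤ 2 / (b ^ 2 + t ^ 2) := by
    rw [hq]
    refine (Complex.abs_re_le_norm _).trans ?_
    rw [norm_div, norm_mul, norm_pow, Complex.norm_real, Real.norm_of_nonneg hX0.le, ← Complex.normSq_eq_norm_sq, normSq_z, neg_sq]
    have h1 : ‖cexp ((((-b : ℝ) : ℂ) + t * I) * (1:ℝ)) - 1‖ ≤ 2 := by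
      refine (norm_sub_le _ _).trans ?_
      rw [Complex.norm_exp, norm_one]
      have : ((((-b : ℝ) : ℂ) + t * I) * (1:ℝ)).re ≤ 0 := by
        simp
        positivity
      have := Real.exp_le_one_iff.mpr this
      linarith
    calc ‖cexp ((((-b : ℝ) : ℂ) + t * I) * (1:ℝ)) - 1‖ / (1 * (b ^ 2 + t ^ 2)) ≤ 2 / (1 * (b ^ 2 + t ^ 2)) := by gcongr
      _ = _ := by rw [one_mul]
  unfold Dn
  have hab : 2 * ((n:ℝ) + 1) = b + 3 / 2 := by rw [hb]; ring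
  rw [hab]
  have e2 : (((n:ℝ) + 1)⁻¹ - 2 * (-(-b / ((-b) ^ 2 + t ^ 2)) + q)) - (1 / ((n:ℝ) + 1) - 2 * ((b + 3 / 2) / ((b + 3 / 2) ^ 2 + t ^ 2))) =
      -(3 * (b * (b + 3 / 2) - t ^ 2) / ((b ^ 2 + t ^ 2) * ((b + 3 / 2) ^ 2 + t ^ 2))) - 2 * q := by
    field_simp
    ring
  rw [e2]
  have h3 : |3 * (b * (b + 3 / 2) - t ^ 2) / ((b ^ 2 + t ^ 2) * ((b + 3 / 2) ^ 2 + t ^ 2))| ≤ 3 / (b ^ 2 + t ^ 2) := by
    rw [abs_div, abs_of_pos (by positivity : 0 < (b ^ 2 + t ^ 2) * ((b + 3 / 2) ^ 2 + t ^ 2)), div_le_div_iff₀ (by positivity) (by positivity), abs_mul,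
      abs_of_pos (by norm_num : (0:ℝ) < 3)]
    have h4 : |b * (b + 3 / 2) - t ^ 2| ≤ (b + 3 / 2) ^ 2 + t ^ 2 := by
      rw [abs_le]
      constructor <;> nlinarith [sq_nonneg t, mul_pos hb0 hb0]
    calc 3 * |b * (b + 3 / 2) - t ^ 2| * (b ^ 2 + t ^ 2) ≤ 3 * ((b + 3 / 2) ^ 2 + t ^ 2) * (b ^ 2 + t ^ 2) := by gcongr
      _ = _ := by ring
  have h5 : 7 / (b ^ 2 + t ^ 2) ≤ 7 * (1 / ((n:ℝ) ^ 2 + t ^ 2)) := by
    rw [mul_one_div]
    gcongr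
    rw [hb]; linarith
  calc |-(3 * (b * (b + 3 / 2) - t ^ 2) / ((b ^ 2 + t ^ 2) * ((b + 3 / 2) ^ 2 + t ^ 2))) - 2 * q|
      ≤ |-(3 * (b * (b + 3 / 2) - t ^ 2) / ((b ^ 2 + t ^ 2) * ((b + 3 / 2) ^ 2 + t ^ 2)))| + |2 * q| := abs_sub _ _
    _ ≤ 3 / (b ^ 2 + t ^ 2) + 2 * (2 / (b ^ 2 + t ^ 2)) := by
        rw [abs_neg, abs_mul, abs_of_pos (by norm_num : (0:ℝ) < 2)]
        gcongr
    _ = 7 / (b ^ 2 + t ^ 2) := by ring
    _ ≤ _ := h5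

/-- the archimedean main term, precisely -/
theorem MT_asym {t : ℝ} (ht : 2 ≤ t) : |MT 1 t - Real.log (t / (2 * Real.pi))| ≤ 50 / t := by
  have hX0 : (0:ℝ) < 1 := one_pos
  have ht0 : 0 < t := by linarith
  have hpi := Real.pi_pos
  have hJ1 : |(JJ 1 ((3 / 2 - 2 : ℝ) + t * I)).re| ≤ 3 / t := by
    have h := JJ_re_le hX0 (z_ne (a := 3/2 - 2) (by norm_num) t)
    rw [normSq_z] at h
    refine h.trans ?_
    have e1 : (((3 / 2 - 2 : ℝ) : ℂ) + t * I).re = -(1/2) := by simp; norm_num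
    rw [e1, div_le_div_iff₀ (by positivity) ht0]
    have h2 : Real.exp (-(1/2) * 1) ≤ 1 := Real.exp_le_one_iff.mpr (by norm_num)
    rw [abs_neg, abs_of_pos (by norm_num : (0:ℝ) < 1/2), div_one]
    nlinarith
  have hJ2 : |(JJ 1 ((3 / 2 - 1 : ℝ) + t * I)).re| ≤ 4 / t := by
    have h := JJ_re_le hX0 (z_ne (a := 3/2 - 1) (by norm_num) t)
    rw [normSq_z] at h
    refine h.trans ?_
    have e1 : (((3 / 2 - 1 : ℝ) : ℂ) + t * I).re = 1/2 := by simp; norm_num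
    rw [e1, div_le_div_iff₀ (by positivity) ht0]
    have h2 : Real.exp (1/2 * 1) ≤ 2.5 := by
      have h3 : Real.exp (1/2 * 1) ≤ Real.exp 1 := Real.exp_le_exp.mpr (by norm_num)
      have h4 : Real.exp (1/2 * 1) ^ 2 = Real.exp 1 := by rw [← Real.exp_nat_mul]; norm_num
      have h5 := Real.exp_one_lt_d9
      have h6 := Real.exp_pos (1/2 * 1)
      nlinarith
    rw [abs_of_pos (by norm_num : (0:ℝ) < 1/2), div_one]
    nlinarith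
  -- the sum
  set Tn : ℕ → ℝ := fun n => 1 / ((n:ℝ) + 1) - 2 * (JJ 1 ((3 / 2 - 2 * ((n:ℝ) + 1) : ℝ) + t * I)).re with hTn
  have hs0 : ∀ K : ℕ, ∑ n ∈ Finset.range K, 7 * (1 / ((n:ℝ) ^ 2 + t ^ 2)) ≤ 28 / t := by
    intro K
    rw [← Finset.mul_sum]
    have := sum_inv_add_sq (w := t) (by linarith) K
    calc 7 * ∑ n ∈ Finset.range K, 1 / ((n:ℝ) ^ 2 + t ^ 2) ≤ 7 * (4 / t) := by gcongr
      _ = _ := by ring
  have hs : Summable (fun n : ℕ => 7 * (1 / ((n:ℝ) ^ 2 + t ^ 2))) :=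
    summable_of_sum_range_le (fun n => by positivity) hs0
  have hs28 : ∑' n : ℕ, 7 * (1 / ((n:ℝ) ^ 2 + t ^ 2)) ≤ 28 / t := Real.tsum_le_of_sum_range_le (fun n => by positivity) hs0
  have hd : Summable (fun n => Tn n - Dn n t) := Summable.of_norm_bounded hs (fun n => by
    rw [Real.norm_eq_abs]; exact term_diff2 (by linarith) n)
  have hTs : Summable Tn := by
    have := hd.add (Dn_summable t)
    refine this.congr fun n => by ring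
  have h1 : |∑' n, Tn n - ∑' n, Dn n t| ≤ 28 / t := by
    rw [← hTs.tsum_sub (Dn_summable t), ← Real.norm_eq_abs]
    refine (tsum_of_norm_bounded hs.hasSum (fun n => ?_)).trans hs28
    rw [Real.norm_eq_abs]; exact term_diff2 (by linarith) n
  have h2 := Dn_sum_asym ht
  have hlog : Real.log (t / (2 * Real.pi)) = Real.log (t / 2) - Real.log Real.pi := by
    rw [← Real.log_div (by positivity) hpi.ne']
    congr 1
    field_simp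
  unfold MT
  rw [hlog]
  have e : (2 * (JJ 1 ((3 / 2 - 2 : ℝ) + t * I)).re + 2 * (JJ 1 ((3 / 2 - 1 : ℝ) + t * I)).re -
      (Real.log Real.pi + Real.eulerMascheroniConstant) + ∑' n, Tn n) - (Real.log (t / 2) - Real.log Real.pi) =
      2 * (JJ 1 ((3 / 2 - 2 : ℝ) + t * I)).re + 2 * (JJ 1 ((3 / 2 - 1 : ℝ) + t * I)).re +
      (∑' n, Tn n - ∑' n, Dn n t) + (∑' n, Dn n t - (Real.eulerMascheroniConstant + Real.log (t / 2))) := by ring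
  have hTT : (∑' n : ℕ, (1 / ((n:ℝ) + 1) - 2 * (JJ 1 ((3 / 2 - 2 * ((n:ℝ) + 1) : ℝ) + t * I)).re)) = ∑' n, Tn n := rfl
  rw [hTT, e]
  set A1 := (JJ 1 ((3 / 2 - 2 : ℝ) + t * I)).re
  set A2 := (JJ 1 ((3 / 2 - 1 : ℝ) + t * I)).re
  have g1 := abs_le.mp hJ1
  have g2 := abs_le.mp hJ2
  have g5 := abs_le.mp h1
  have g6 := abs_le.mp h2
  have e3 : 3 / t = 3 * (1 / t) := by ring
  have e4 : 4 / t = 4 * (1 / t) := by ring
  have e28 : 28 / t = 28 * (1 / t) := by ring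
  have e8 : 8 / t = 8 * (1 / t) := by ring
  have e50 : 50 / t = 50 * (1 / t) := by ring
  rw [e3] at g1
  rw [e4] at g2
  rw [e28] at g5
  rw [e8] at g6
  rw [e50]
  rw [abs_le]
  constructor <;> linarith [g1.1, g1.2, g2.1, g2.2, g5.1, g5.2, g6.1, g6.2]

end Pool.Agent.Helper57.US
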