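import Pool.Agent.Helper57.US.Tail
import Pool.Agent.Helper57.LS.EL2

namespace Pool.Agent.Helper57.US

open Set MeasureTheory Filter Topology
open Pool.Agent.Helper57.LH
open Pool.Agent.Helper57.Zeta
open Pool.Agent.Helper57.LS

/-- pointwise bound of the main term -/
lemma MT_pt {T B L X t : ℝ} (hL : L = Real.log T) (hL0 : 0 < L) (hB0 : 1 ≤ B) (hX : X = L / B) (hX1 : 1 ≤ X)
    (hT : 1 ≤ T) (hT2 : Real.sqrt T ≤ t) (htT : t ≤ T) : (MT X t / X - B) ^ 2 ≤ (B / L) ^ 2 * (2 * CM ^ 2 + 32 * (T ^ (1/2 : ℝ) * t ^ (-(1/2) : ℝ))) := by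
  have hX0 : 0 < X := by linarith
  have hT0 : 0 < T := by linarith
  have hs1 : 1 ≤ Real.sqrt T := by rw [Real.one_le_sqrt]; exact hT
  have ht1 : 1 ≤ t := by linarith
  have ht0 : 0 < t := by linarith
  have hXt : Real.exp (X / 2) ≤ t ^ 2 := by
    have h3 : Real.exp (X / 2) ≤ T := by
      rw [← Real.exp_log hT0, ← hL]
      apply Real.exp_le_exp.mpr
      rw [hX]
      have : L / B ≤ L := div_le_self hL0.le hB0
      linarith
    have h4 : T ≤ t ^ 2 := by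
      calc T = Real.sqrt T ^ 2 := (Real.sq_sqrt hT0.le).symm
        _ ≤ t ^ 2 := by gcongr
    exact h3.trans h4
  have h3 := MT_bound hX1 ht1 hXt
  have h4 : Real.log t ≤ L := by rw [hL]; exact Real.log_le_log ht0 htT
  have h5 : L - Real.log t ≤ 4 * (T / t) ^ (1/4 : ℝ) := by
    have h6 : L - Real.log t = Real.log (T / t) := by rw [Real.log_div hT0.ne' ht0.ne', hL]
    rw [h6]
    have h7 := Real.log_le_rpow_div (x := T / t) (ε := 1/4) (by positivity) (by norm_num)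
    refine h7.trans (le_of_eq ?_)
    ring
  have hq0 : 0 ≤ (T / t) ^ (1/4 : ℝ) := by positivity
  have hq : ((T / t) ^ (1/4 : ℝ)) ^ 2 = T ^ (1/2 : ℝ) * t ^ (-(1/2) : ℝ) := by
    rw [← Real.rpow_natCast, ← Real.rpow_mul (by positivity), Real.div_rpow hT0.le ht0.le, Real.rpow_neg ht0.le, div_eq_mul_inv]
    norm_num
  have h6 : |MT X t - L| ≤ CM + 4 * (T / t) ^ (1/4 : ℝ) := by
    rw [abs_le] at h3 ⊢
    constructor
    · linarith [h3.1]
    · linarith [h3.2]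
  have h7 : MT X t / X - B = (B / L) * (MT X t - L) := by
    rw [hX]; field_simp
  rw [h7, mul_pow]
  apply mul_le_mul_of_nonneg_left _ (sq_nonneg _)
  calc (MT X t - L) ^ 2 = |MT X t - L| ^ 2 := (sq_abs _).symm
    _ ≤ (CM + 4 * (T / t) ^ (1/4 : ℝ)) ^ 2 := by gcongr
    _ ≤ 2 * CM ^ 2 + 32 * ((T / t) ^ (1/4 : ℝ)) ^ 2 := by nlinarith [sq_nonneg (CM - 4 * (T / t) ^ (1/4 : ℝ))]
    _ = _ := by rw [hq]

lemma int_rpow_half {a b : ℝ} (ha : 0 < a) (hab : a ≤ b) : ∫ t in Icc a b, t ^ (-(1/2) : ℝ) ≤ 2 * b ^ (1/2 : ℝ) := by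
  rw [integral_Icc_eq_integral_Ioc, ← intervalIntegral.integral_of_le hab, integral_rpow (Or.inl (by norm_num))]
  have h1 : (-(1/2) : ℝ) + 1 = 1/2 := by norm_num
  rw [h1]
  have : 0 ≤ a ^ (1/2 : ℝ) := by positivity
  linarith

lemma rpow_contOn {a b : ℝ} (ha : 0 < a) : ContinuousOn (fun t : ℝ => t ^ (-(1/2) : ℝ)) (Icc a b) := by
  apply ContinuousOn.rpow_const continuousOn_id
  intro t ht
  left
  have : a ≤ t := ht.1
  simp only [id]
  linarith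

lemma sq3 (x y z : ℝ) : (x + y + z) ^ 2 ≤ 3 * x ^ 2 + 3 * y ^ 2 + 3 * z ^ 2 := by
  nlinarith [sq_nonneg (x - y), sq_nonneg (x - z), sq_nonneg (y - z)]

lemma inv16 {B : ℝ} (hB : 1 ≤ B) : (1:ℝ) / (16 * B ^ 2) ≤ 1 := by
  rw [div_le_one (by positivity)]
  nlinarith

/-- L² approximation, uniform in the scale. -/
theorem E_l2U : ∃ K : ℝ, 0 < K ∧ ∀ᶠ T : ℝ in atTop, ∀ B : ℝ, 9600 ≤ B → B ≤ Real.log T →
    ∫ t in Icc (T ^ (3/4 : ℝ)) (T - T ^ (3/4 : ℝ)), (Yf (ZT T) (Real.log T / B) t - B + PS (Real.log T / B) t) ^ 2 ≤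
      K * (T / B ^ 2 + T * (B / Real.log T) ^ 2) := by
  obtain ⟨CQ, hCQ, T0, hT0, hQ⟩ := Qbound
  set K : ℝ := 1152 * Real.pi ^ 2 * CQ + 1 with hK
  have hK0 : 0 < K := by rw [hK]; positivity
  have hCM := CM_pos
  refine ⟨3 * K + 3 + 3 * (2 * CM ^ 2 + 64), by positivity, ?_⟩
  have hl := Real.tendsto_log_atTop
  have hCLA := CLA_pos
  have hC1 := C1_nonneg
  have hCA := CA_nonneg
  have hCT := CTl_nonneg
  filter_upwards [eventually_ge_atTop T0, eventually_ge_atTop (400:ℝ), hl.eventually_ge_atTop 40,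
    log_pow_le 2 0 (s := 3/4) (by norm_num), log_pow_le (1152 * (40 * CA * C1) ^ 2) 6 (s := 1/9600 + 3/4) (by norm_num),
    log_pow_le CTl 1 (s := 15/16) (by norm_num)] with T g1 g2 g3 g4 g9 g10 B hB hBL
  have hT0' : 0 < T := by linarith
  have hB0 : 0 < B := by linarith
  have e7 : Real.exp (Real.log T / B) = T ^ (1 / B) := by
    rw [Real.rpow_def_of_pos hT0']; congr 1; ring
  obtain ⟨L, hL⟩ : ∃ L, L = Real.log T := ⟨_, rfl⟩
  obtain ⟨X, hX⟩ : ∃ X, X = L / B := ⟨_, rfl⟩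
  rw [← hL, ← hX] at e7
  rw [← hL] at g3 g4 g9 g10 hBL ⊢
  rw [← hX]
  have hL0 : 0 < L := by linarith
  have hX1 : 1 ≤ X := by rw [hX, le_div_iff₀ hB0]; linarith
  have hX0 : 0 < X := by linarith
  obtain ⟨a, ha⟩ : ∃ a, a = T ^ (3/4 : ℝ) := ⟨_, rfl⟩
  rw [← ha]
  have hsT : Real.sqrt T = T ^ (1/2 : ℝ) := Real.sqrt_eq_rpow T
  have hsT20 : 20 ≤ Real.sqrt T := by
    rw [Real.le_sqrt (by norm_num) hT0'.le]
    linarith
  have haT2 : Real.sqrt T ≤ a := by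
    rw [hsT, ha]
    exact Real.rpow_le_rpow_of_exponent_le (by linarith) (by norm_num)
  have ha20 : 20 ≤ a := hsT20.trans haT2
  have ha2T : 2 * a ≤ T := by rw [ha]; simpa using g4
  obtain ⟨Ψ, hΨc, hΨ0, hΨi, hΨd⟩ := hQ T g1 B hB
  have hdom : DomPsi T B Ψ := hΨd
  have hRB := RB_sq (T := T) (L := L) (B := B) (X := X) (a := a) (C := CQ) hL0 hB0 hX (by linarith) (by linarith) haT2 hΨc hΨ0 hΨi
  have hDC : 1152 * L ^ 2 * DC B L ^ 2 * T ^ (3/4 : ℝ) ≤ T / B ^ 2 := by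
    have e1 : DC B L ^ 2 = L ^ 4 * (40 * CA * C1) ^ 2 / (16 * B ^ 4) * T ^ (1 / B) := by
      unfold DC WM Wt
      have e2 : Real.exp (L / 2 / B) ^ 2 = T ^ (1 / B) := by
        rw [← e7, ← Real.exp_nat_mul, hX]
        congr 1
        push_cast
        ring
      rw [← e2]
      field_simp
      ring
    rw [e1, le_div_iff₀ (by positivity)]
    have h1 : T ^ (1 / B) ≤ T ^ (1 / 9600 : ℝ) :=
      Real.rpow_le_rpow_of_exponent_le (by linarith) (one_div_le_one_div_of_le (by norm_num) hB)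
    have h2 : (1:ℝ) / (16 * B ^ 2) ≤ 1 := inv16 (by linarith)
    have hTp : 0 < T ^ (3/4 : ℝ) := by positivity
    calc 1152 * L ^ 2 * (L ^ 4 * (40 * CA * C1) ^ 2 / (16 * B ^ 4) * T ^ (1 / B)) * T ^ (3 / 4 : ℝ) * B ^ 2
        = (1152 * (40 * CA * C1) ^ 2 * L ^ 6) * (1 / (16 * B ^ 2)) * T ^ (1 / B) * T ^ (3/4 : ℝ) := by
          field_simp
      _ ≤ (1152 * (40 * CA * C1) ^ 2 * L ^ 6) * 1 * T ^ (1 / 9600 : ℝ) * T ^ (3/4 : ℝ) := by gcongr
      _ = 1152 * (40 * CA * C1) ^ 2 * L ^ 6 * T ^ (1/9600 + 3/4 : ℝ) := by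
          rw [Real.rpow_add hT0']; ring
      _ ≤ T := g9
  have hRc : ContinuousOn (fun t => (16 * RB T L B X Ψ t) ^ 2) (Icc a T) :=
    (continuousOn_const.mul (RB_contOn (by linarith) hΨc)).pow 2
  have hsub : Icc a (T - a) ⊆ Icc a T := Icc_subset_Icc le_rfl (by linarith)
  have iR : IntegrableOn (fun t => (16 * RB T L B X Ψ t) ^ 2) (Icc a T) := hRc.integrableOn_compact isCompact_Icc
  have hW : ∫ t in Icc a (T - a), (16 * RB T L B X Ψ t) ^ 2 ≤ K * (T / B ^ 2) := by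
    have h1 : ∫ t in Icc a (T - a), (16 * RB T L B X Ψ t) ^ 2 ≤ ∫ t in Icc a T, (16 * RB T L B X Ψ t) ^ 2 := by
      apply setIntegral_mono_set iR
      · exact Eventually.of_forall fun t => sq_nonneg _
      · exact hsub.eventuallyLE
    refine h1.trans (hRB.trans ?_)
    rw [hK]
    linarith
  have htail : CTl * T ^ (-(1/16) : ℝ) ≤ 1 / B := by
    have h1 : CTl * T ^ (-(1/16) : ℝ) * L ≤ 1 := by
      have e1 : T ^ (-(1/16) : ℝ) * T = T ^ (15/16 : ℝ) := by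
        nth_rewrite 2 [← Real.rpow_one T]
        rw [← Real.rpow_add hT0']
        norm_num
      have h2 : CTl * T ^ (-(1/16) : ℝ) * L * T ≤ 1 * T := by
        calc CTl * T ^ (-(1/16) : ℝ) * L * T = CTl * L ^ 1 * (T ^ (-(1/16) : ℝ) * T) := by ring
          _ = CTl * L ^ 1 * T ^ (15/16 : ℝ) := by rw [e1]
          _ ≤ 1 * T := by rw [one_mul]; exact g10
      exact le_of_mul_le_mul_right h2 hT0'
    rw [le_div_iff₀ hB0]
    have hTp : 0 ≤ CTl * T ^ (-(1/16) : ℝ) := by positivity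
    calc CTl * T ^ (-(1/16) : ℝ) * B ≤ CTl * T ^ (-(1/16) : ℝ) * L := by gcongr
      _ ≤ 1 := h1
  have hpt : ∀ t ∈ Icc a (T - a), (Yf (ZT T) X t - B + PS X t) ^ 2 ≤ 3 * (16 * RB T L B X Ψ t) ^ 2 +
      (3 * (1 / B) ^ 2 + 3 * (B / L) ^ 2 * (2 * CM ^ 2) + (3 * (B / L) ^ 2 * 32 * T ^ (1/2 : ℝ)) * t ^ (-(1/2) : ℝ)) := by
    intro t ht
    have h1 := Y_far (t := t) hL g3 hB hX hX1 (by linarith) (by rw [← ha]; exact ha20) (by rw [← ha]; exact ht.1) (by rw [← ha]; exact ht.2) hΨc hdom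
    have h2 := MT_pt (t := t) hL hL0 (by linarith) hX hX1 (by linarith) (haT2.trans ht.1) (by linarith [ht.2])
    set R := 16 * RB T L B X Ψ t with hR
    have h4 : 0 ≤ R := by
      have := RB_nonneg (T := T) (L := L) (B := B) (X := X) hL0.le Ψ (t := t) (by have := ht.1; linarith)
      rw [hR]; linarith
    have h3 : |Yf (ZT T) X t - (MT X t / X - PS X t)| ≤ R + 1 / B := h1.trans (by linarith)
    have e : Yf (ZT T) X t - B + PS X t = (Yf (ZT T) X t - (MT X t / X - PS X t)) + (MT X t / X - B) := by ring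
    have hiB : 0 < 1 / B := by positivity
    obtain ⟨p, hp⟩ : ∃ p, p = Yf (ZT T) X t - (MT X t / X - PS X t) := ⟨_, rfl⟩
    obtain ⟨q, hq⟩ : ∃ q, q = MT X t / X - B := ⟨_, rfl⟩
    rw [← hp] at h3
    rw [← hq] at h2
    rw [e, ← hp, ← hq]
    have h5 : (p + q) ^ 2 ≤ 3 * R ^ 2 + 3 * (1 / B) ^ 2 + 3 * q ^ 2 := by
      have h6 : |p + q| ≤ R + 1 / B + |q| := (abs_add_le p q).trans (by linarith)
      calc (p + q) ^ 2 = |p + q| ^ 2 := (sq_abs _).symm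
        _ ≤ (R + 1 / B + |q|) ^ 2 := by gcongr
        _ ≤ 3 * R ^ 2 + 3 * (1 / B) ^ 2 + 3 * |q| ^ 2 := sq3 _ _ _
        _ = _ := by rw [sq_abs]
    have h7 : 3 * q ^ 2 ≤ 3 * ((B / L) ^ 2 * (2 * CM ^ 2 + 32 * (T ^ (1/2 : ℝ) * t ^ (-(1/2) : ℝ)))) := by gcongr
    have e2 : 3 * ((B / L) ^ 2 * (2 * CM ^ 2 + 32 * (T ^ (1/2 : ℝ) * t ^ (-(1/2) : ℝ)))) =
        3 * (B / L) ^ 2 * (2 * CM ^ 2) + (3 * (B / L) ^ 2 * 32 * T ^ (1/2 : ℝ)) * t ^ (-(1/2) : ℝ) := by ring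
    rw [e2] at h7
    linarith
  have hcE : Continuous (fun t => (Yf (ZT T) X t - B + PS X t) ^ 2) :=
    (((Yf_cont _ X).sub continuous_const).add (PS_cont hX0)).pow 2
  have iR' : IntegrableOn (fun t => (16 * RB T L B X Ψ t) ^ 2) (Icc a (T - a)) := iR.mono_set hsub
  have iP : IntegrableOn (fun t : ℝ => t ^ (-(1/2) : ℝ)) (Icc a (T - a)) := (rpow_contOn (by linarith)).integrableOn_compact isCompact_Icc
  have iC : IntegrableOn (fun _ : ℝ => 3 * (1 / B) ^ 2 + 3 * (B / L) ^ 2 * (2 * CM ^ 2)) (Icc a (T - a)) := ioc continuous_const _ _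
  have haa : a ≤ T - a := by linarith
  have hhalf : ∫ t in Icc a (T - a), t ^ (-(1/2) : ℝ) ≤ 2 * T ^ (1/2 : ℝ) := by
    refine (int_rpow_half (by linarith) haa).trans ?_
    exact mul_le_mul_of_nonneg_left (Real.rpow_le_rpow (by linarith) (by linarith) (by norm_num)) (by norm_num)
  have hTT : T ^ (1/2 : ℝ) * T ^ (1/2 : ℝ) = T := by
    rw [← Real.rpow_add hT0']; norm_num
  calc ∫ t in Icc a (T - a), (Yf (ZT T) X t - B + PS X t) ^ 2
      ≤ ∫ t in Icc a (T - a), (3 * (16 * RB T L B X Ψ t) ^ 2 +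
          (3 * (1 / B) ^ 2 + 3 * (B / L) ^ 2 * (2 * CM ^ 2) + (3 * (B / L) ^ 2 * 32 * T ^ (1/2 : ℝ)) * t ^ (-(1/2) : ℝ))) := by
        apply setIntegral_mono_on (ioc hcE _ _) ((iR'.const_mul 3).add (iC.add (iP.const_mul _))) measurableSet_Icc hpt
    _ = 3 * (∫ t in Icc a (T - a), (16 * RB T L B X Ψ t) ^ 2) + ((T - a - a) * (3 * (1 / B) ^ 2 + 3 * (B / L) ^ 2 * (2 * CM ^ 2)) +
          (3 * (B / L) ^ 2 * 32 * T ^ (1/2 : ℝ)) * ∫ t in Icc a (T - a), t ^ (-(1/2) : ℝ)) := by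
        have e1 := integral_add (μ := volume.restrict (Icc a (T - a))) (iR'.const_mul 3) (iC.add (iP.const_mul (3 * (B / L) ^ 2 * 32 * T ^ (1/2 : ℝ))))
        have e2 := integral_add (μ := volume.restrict (Icc a (T - a))) iC (iP.const_mul (3 * (B / L) ^ 2 * 32 * T ^ (1/2 : ℝ)))
        simp only [Pi.add_apply] at e1 e2
        rw [e1, e2, integral_const_mul, integral_const_mul, setIntegral_const, Real.volume_real_Icc_of_le haa, smul_eq_mul]
    _ ≤ 3 * (K * (T / B ^ 2)) + (T * (3 * (1 / B) ^ 2 + 3 * (B / L) ^ 2 * (2 * CM ^ 2)) + (3 * (B / L) ^ 2 * 32 * T ^ (1/2 : ℝ)) * (2 * T ^ (1/2 : ℝ))) := by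
        have hw : T - a - a ≤ T := by linarith
        generalize T - a - a = w at hw ⊢
        gcongr
    _ = (3 * K + 3) * (T / B ^ 2) + 3 * (2 * CM ^ 2 + 64) * (T * (B / L) ^ 2) := by
        have : (3 * (B / L) ^ 2 * 32 * T ^ (1/2 : ℝ)) * (2 * T ^ (1/2 : ℝ)) = 3 * (B / L) ^ 2 * 64 * (T ^ (1/2 : ℝ) * T ^ (1/2 : ℝ)) := by ring
        rw [this, hTT]
        ring
    _ ≤ _ := by
        have p1 : 0 ≤ T / B ^ 2 := by positivity
        have p2 : 0 ≤ T * (B / L) ^ 2 := by positivity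
        have p3 : 0 ≤ 3 * (2 * CM ^ 2 + 64) * (T / B ^ 2) := by positivity
        have p4 : 0 ≤ (3 * K + 3) * (T * (B / L) ^ 2) := by positivity
        have e3 : (3 * K + 3 + 3 * (2 * CM ^ 2 + 64)) * (T / B ^ 2 + T * (B / L) ^ 2) = (3 * K + 3) * (T / B ^ 2) + 3 * (2 * CM ^ 2 + 64) * (T * (B / L) ^ 2) +
          (3 * (2 * CM ^ 2 + 64) * (T / B ^ 2) + (3 * K + 3) * (T * (B / L) ^ 2)) := by ring
        rw [e3]
        linarith

end Pool.Agent.Helper57.US
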