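import Pool.Agent.Helper57.US.EL2U
import Pool.Agent.Helper57.US.Dig

namespace Pool.Agent.Helper57.US

open Set MeasureTheory Filter Topology
open Pool.Agent.Helper57.LH
open Pool.Agent.Helper57.Zeta
open Pool.Agent.Helper57.LS
open Pool.Agent.Helper57.PC (SN SN_pos)

lemma int_log2pi {a b : ℝ} (ha : 0 < a) (hab : a ≤ b) : ∫ t in a..b, Real.log (t / (2 * Real.pi)) =
    (b * Real.log (b / (2 * Real.pi)) - b) - (a * Real.log (a / (2 * Real.pi)) - a) := by
  have hpi := Real.pi_pos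
  have h1 : ∀ t ∈ uIcc a b, HasDerivAt (fun t : ℝ => t * Real.log (t / (2 * Real.pi)) - t) (Real.log (t / (2 * Real.pi))) t := by
    intro t ht
    rw [uIcc_of_le hab] at ht
    have ht0 : 0 < t := by linarith [ht.1]
    have h2 : HasDerivAt (fun t : ℝ => t / (2 * Real.pi)) (1 / (2 * Real.pi)) t := (hasDerivAt_id t).div_const _
    have h3 := (hasDerivAt_id t).mul (h2.log (by positivity))
    have h4 := h3.sub (hasDerivAt_id t)
    refine h4.congr_deriv ?_
    simp only [id]
    field_simp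
    ring
  exact intervalIntegral.integral_eq_sub_of_hasDerivAt h1 (by
    apply ContinuousOn.intervalIntegrable
    rw [uIcc_of_le hab]
    apply ContinuousOn.log (by fun_prop)
    intro t ht
    have : 0 < t := by linarith [ht.1]
    positivity)

lemma log2pi_abs {T L t : ℝ} (hL : L = Real.log T) (hL2 : 2 ≤ L) (ht : 1 ≤ t) (htT : t ≤ T) : |Real.log (t / (2 * Real.pi))| ≤ L := by
  have hpi := Real.pi_pos
  have hpi4 := Real.pi_lt_four
  have h1 : Real.log (t / (2 * Real.pi)) = Real.log t - Real.log (2 * Real.pi) := Real.log_div (by linarith) (by positivity)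
  have h2 : 0 ≤ Real.log (2 * Real.pi) := Real.log_nonneg (by linarith [Real.pi_gt_three])
  have h3 : Real.log (2 * Real.pi) ≤ 2 + 1/9 := by
    have h4 : Real.log (2 * Real.pi) ≤ Real.log 8 := Real.log_le_log (by positivity) (by linarith)
    have h5 : Real.log 8 = 3 * Real.log 2 := by
      rw [show (8:ℝ) = 2 ^ 3 by norm_num, Real.log_pow]; norm_num
    have := Real.log_two_lt_d9
    linarith
  have h4 : 0 ≤ Real.log t := Real.log_nonneg ht
  have h5 : Real.log t ≤ L := by rw [hL]; exact Real.log_le_log (by linarith) htT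
  have h6 : Real.log (2 * Real.pi) ≤ 2 := by
    have h7 : (2:ℝ) * Real.pi ≤ Real.exp 2 := by
      have h8 : Real.exp 2 = Real.exp 1 ^ 2 := by rw [← Real.exp_nat_mul]; norm_num
      have h9 := Real.exp_one_gt_d9
      have h10 := Real.pi_lt_d2
      rw [h8]
      nlinarith
    calc Real.log (2 * Real.pi) ≤ Real.log (Real.exp 2) := Real.log_le_log (by positivity) h7
      _ = 2 := Real.log_exp 2
  rw [h1, abs_le]
  constructor <;> linarith

/-- Riemann-von Mangoldt with error O(T/log T). -/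
theorem NLaw_ex : ∃ C : ℝ, 0 ≤ C ∧ ∀ᶠ T : ℝ in atTop,
    |NT T - SN T * (1 - (1 + Real.log (2 * Real.pi)) / Real.log T)| ≤ C * (SN T / Real.log T ^ 2) := by
  obtain ⟨CQ, hCQ, T0, hT0, hQ⟩ := Qbound
  set K : ℝ := 1152 * Real.pi ^ 2 * CQ + 1 with hK
  have hK0 : 0 < K := by rw [hK]; positivity
  refine ⟨K + 10, by positivity, ?_⟩
  have hl := Real.tendsto_log_atTop
  have hCLA := CLA_pos
  have hC1 := C1_nonneg
  have hCA := CA_nonneg
  have hCT := CTl_nonneg
  have hpi := Real.pi_pos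
  filter_upwards [eventually_ge_atTop T0, eventually_ge_atTop (400:ℝ), hl.eventually_ge_atTop 9600,
    log_pow_le 2 0 (s := 3/4) (by norm_num), log_pow_le (1152 * (40 * CA * C1) ^ 2) 6 (s := 1/9600 + 3/4) (by norm_num),
    log_pow_le CTl 1 (s := 15/16) (by norm_num), NT_le_ev, log_pow_le (80 * CLA + 4) 2 (s := 3/4) (by norm_num),
    log_pow_le (20 * C1 + 1) 2 (s := 5/8) (by norm_num), log_pow_le 50 1 (s := 1/4) (by norm_num), log_pow_le 36 1 (s := 0) (by norm_num)]
    with T g1 g2 g3 g4 g9 g10 g11 g12 g13 g14 g15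
  have hT0' : 0 < T := by linarith
  obtain ⟨L, hL⟩ : ∃ L, L = Real.log T := ⟨_, rfl⟩
  rw [← hL] at g3 g4 g9 g10 g11 g12 g13 g14 g15 ⊢
  have hL0 : 0 < L := by linarith
  have hX : (1:ℝ) = L / L := by field_simp
  obtain ⟨a, ha⟩ : ∃ a, a = T ^ (3/4 : ℝ) := ⟨_, rfl⟩
  have hsT : Real.sqrt T = T ^ (1/2 : ℝ) := Real.sqrt_eq_rpow T
  have hsT20 : 20 ≤ Real.sqrt T := by
    rw [Real.le_sqrt (by norm_num) hT0'.le]
    linarith
  have haT2 : Real.sqrt T ≤ a := by
    rw [hsT, ha]
    exact Real.rpow_le_rpow_of_exponent_le (by linarith) (by norm_num)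
  have ha20 : 20 ≤ a := hsT20.trans haT2
  have ha0 : 0 < a := by linarith
  have ha2T : 2 * a ≤ T := by rw [ha]; simpa using g4
  obtain ⟨Ψ, hΨc, hΨ0, hΨi, hΨd⟩ := hQ T g1 L g3
  have hdom : DomPsi T L Ψ := hΨd
  have hRB := RB_sq (T := T) (L := L) (B := L) (X := 1) (a := a) (C := CQ) hL0 hL0 hX (by linarith) (by linarith) haT2 hΨc hΨ0 hΨi
  have hDC : 1152 * L ^ 2 * DC L L ^ 2 * T ^ (3/4 : ℝ) ≤ T / L ^ 2 := by
    have e7 : Real.exp (1:ℝ) = T ^ (1 / L) := by
      rw [Real.rpow_def_of_pos hT0', ← hL]; congr 1; field_simp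
    have e1 : DC L L ^ 2 = L ^ 4 * (40 * CA * C1) ^ 2 / (16 * L ^ 4) * T ^ (1 / L) := by
      unfold DC WM Wt
      have e2 : Real.exp (L / 2 / L) ^ 2 = T ^ (1 / L) := by
        rw [← e7, ← Real.exp_nat_mul]
        congr 1
        push_cast
        field_simp
      rw [← e2]
      field_simp
      ring
    rw [e1, le_div_iff₀ (by positivity)]
    have h1 : T ^ (1 / L) ≤ T ^ (1 / 9600 : ℝ) :=
      Real.rpow_le_rpow_of_exponent_le (by linarith) (one_div_le_one_div_of_le (by norm_num) g3)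
    have h2 : (1:ℝ) / (16 * L ^ 2) ≤ 1 := inv16 (by linarith)
    have hTp : 0 < T ^ (3/4 : ℝ) := by positivity
    calc 1152 * L ^ 2 * (L ^ 4 * (40 * CA * C1) ^ 2 / (16 * L ^ 4) * T ^ (1 / L)) * T ^ (3 / 4 : ℝ) * L ^ 2
        = (1152 * (40 * CA * C1) ^ 2 * L ^ 6) * (1 / (16 * L ^ 2)) * T ^ (1 / L) * T ^ (3/4 : ℝ) := by
          field_simp
      _ ≤ (1152 * (40 * CA * C1) ^ 2 * L ^ 6) * 1 * T ^ (1 / 9600 : ℝ) * T ^ (3/4 : ℝ) := by gcongr
      _ = 1152 * (40 * CA * C1) ^ 2 * L ^ 6 * T ^ (1/9600 + 3/4 : ℝ) := by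
          rw [Real.rpow_add hT0']; ring
      _ ≤ T := g9
  have hRc : ContinuousOn (RB T L L 1 Ψ) (Icc a T) := RB_contOn (by linarith) hΨc
  have hsub : Icc a (T - a) ⊆ Icc a T := Icc_subset_Icc le_rfl (by linarith)
  have iR : IntegrableOn (fun t => (16 * RB T L L 1 Ψ t) ^ 2) (Icc a T) :=
    ((continuousOn_const.mul hRc).pow 2).integrableOn_compact isCompact_Icc
  have iR' : IntegrableOn (fun t => (16 * RB T L L 1 Ψ t) ^ 2) (Icc a (T - a)) := iR.mono_set hsub
  have hW : ∫ t in Icc a (T - a), (16 * RB T L L 1 Ψ t) ^ 2 ≤ K * (T / L ^ 2) := by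
    have h1 : ∫ t in Icc a (T - a), (16 * RB T L L 1 Ψ t) ^ 2 ≤ ∫ t in Icc a T, (16 * RB T L L 1 Ψ t) ^ 2 := by
      apply setIntegral_mono_set iR
      · exact Eventually.of_forall fun t => sq_nonneg _
      · exact hsub.eventuallyLE
    refine h1.trans (hRB.trans ?_)
    rw [hK]
    linarith
  have htail : CTl * T ^ (-(1/16) : ℝ) ≤ 1 / L := by
    have e1 : T ^ (-(1/16) : ℝ) * T = T ^ (15/16 : ℝ) := by
      nth_rewrite 2 [← Real.rpow_one T]
      rw [← Real.rpow_add hT0']
      norm_num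
    have h2 : CTl * T ^ (-(1/16) : ℝ) * L * T ≤ 1 * T := by
      calc CTl * T ^ (-(1/16) : ℝ) * L * T = CTl * L ^ 1 * (T ^ (-(1/16) : ℝ) * T) := by ring
        _ = CTl * L ^ 1 * T ^ (15/16 : ℝ) := by rw [e1]
        _ ≤ 1 * T := by rw [one_mul]; exact g10
    rw [le_div_iff₀ hL0]
    exact le_of_mul_le_mul_right h2 hT0'
  -- pointwise
  have h50 : 50 / a ≤ 1 / L := by
    rw [div_le_div_iff₀ ha0 hL0, one_mul, ha]
    have e : T ^ (3/4 : ℝ) * T ^ (1/4 : ℝ) = T := by rw [← Real.rpow_add hT0']; norm_num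
    have hq : 0 < T ^ (1/4 : ℝ) := by positivity
    have h1 : 50 * L * T ^ (1/4 : ℝ) ≤ T ^ (3/4 : ℝ) * T ^ (1/4 : ℝ) := by rw [e]; simpa using g14
    exact le_of_mul_le_mul_right h1 hq
  have hpt : ∀ t ∈ Icc a (T - a), |(Yf (ZT T) 1 t + PS 1 t) - Real.log (t / (2 * Real.pi))| ≤ L / 2 * (16 * RB T L L 1 Ψ t) ^ 2 + 5 / (2 * L) := by
    intro t ht
    have h1 := Y_far (t := t) hL (by linarith : 40 ≤ L) g3 hX le_rfl (by linarith) (by rw [← ha]; exact ha20) (by rw [← ha]; exact ht.1) (by rw [← ha]; exact ht.2) hΨc hdom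
    have h2 := MT_asym (t := t) (by linarith [ht.1])
    have h3 : 50 / t ≤ 1 / L := by
      refine le_trans ?_ h50
      have := ht.1
      gcongr
    rw [div_one] at h1
    set R := 16 * RB T L L 1 Ψ t with hR
    have e : Yf (ZT T) 1 t + PS 1 t - Real.log (t / (2 * Real.pi)) = (Yf (ZT T) 1 t - (MT 1 t - PS 1 t)) + (MT 1 t - Real.log (t / (2 * Real.pi))) := by ring
    rw [e]
    have h5 : R ≤ L / 2 * R ^ 2 + 1 / (2 * L) := by
      have h6 : 0 ≤ L / 2 * (R - 1 / L) ^ 2 := by positivity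
      have e2 : L / 2 * (R - 1 / L) ^ 2 = L / 2 * R ^ 2 + 1 / (2 * L) - R := by
        field_simp
        ring
      linarith
    have e3 : 5 / (2 * L) = 1 / (2 * L) + 1 / L + 1 / L := by field_simp; norm_num
    refine (abs_add_le _ _).trans ?_
    rw [e3]
    linarith
  have hcY : Continuous (Yf (ZT T) 1) := Yf_cont _ 1
  have hcP : Continuous (PS 1) := PS_cont one_pos
  have hcl : ContinuousOn (fun t : ℝ => Real.log (t / (2 * Real.pi))) (Icc a (T - a)) := by
    apply ContinuousOn.log (by fun_prop)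
    intro t ht
    have : 0 < t := by linarith [ht.1]
    positivity
  have haa : a ≤ T - a := by linarith
  have iY : IntegrableOn (Yf (ZT T) 1) (Icc a (T - a)) := ioc hcY _ _
  have iPS : IntegrableOn (PS 1) (Icc a (T - a)) := ioc hcP _ _
  have il : IntegrableOn (fun t : ℝ => Real.log (t / (2 * Real.pi))) (Icc a (T - a)) := hcl.integrableOn_compact isCompact_Icc
  have hint : |(∫ t in Icc a (T - a), Yf (ZT T) 1 t) + (∫ t in Icc a (T - a), PS 1 t) - ∫ t in Icc a (T - a), Real.log (t / (2 * Real.pi))| ≤ (K + 5) / 2 * (T / L) := by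
    have e1 : (∫ t in Icc a (T - a), Yf (ZT T) 1 t) + (∫ t in Icc a (T - a), PS 1 t) - ∫ t in Icc a (T - a), Real.log (t / (2 * Real.pi)) =
        ∫ t in Icc a (T - a), ((Yf (ZT T) 1 t + PS 1 t) - Real.log (t / (2 * Real.pi))) := by
      have q1 := integral_add (μ := volume.restrict (Icc a (T - a))) iY iPS
      have q2 := integral_sub (μ := volume.restrict (Icc a (T - a))) (iY.add iPS) il
      simp only [Pi.add_apply] at q1 q2
      rw [q2, q1]
    rw [e1, ← Real.norm_eq_abs]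
    refine (norm_integral_le_integral_norm _).trans ?_
    have h1 : ∫ t in Icc a (T - a), ‖(Yf (ZT T) 1 t + PS 1 t) - Real.log (t / (2 * Real.pi))‖ ≤ ∫ t in Icc a (T - a), (L / 2 * (16 * RB T L L 1 Ψ t) ^ 2 + 5 / (2 * L)) := by
      apply setIntegral_mono_on
      · exact ((iY.add iPS).sub il).norm
      · exact (iR'.const_mul (L/2)).add (ioc continuous_const _ _)
      · exact measurableSet_Icc
      · intro t ht
        rw [Real.norm_eq_abs]
        exact hpt t ht
    refine h1.trans ?_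
    rw [integral_add (iR'.const_mul (L/2)) (ioc continuous_const _ _), integral_const_mul, setIntegral_const, Real.volume_real_Icc_of_le haa, smul_eq_mul]
    calc L / 2 * (∫ t in Icc a (T - a), (16 * RB T L L 1 Ψ t) ^ 2) + (T - a - a) * (5 / (2 * L)) ≤ L / 2 * (K * (T / L ^ 2)) + T * (5 / (2 * L)) := by
          have hw : T - a - a ≤ T := by linarith
          generalize T - a - a = w at hw ⊢
          gcongr
      _ = (K + 5) / 2 * (T / L) := by field_simp
  -- the pieces
  have hPSm : |∫ t in Icc a (T - a), PS 1 t| ≤ T / L := by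
    rw [integral_Icc_eq_integral_Ioc, ← intervalIntegral.integral_of_le haa]
    refine (PS_mean (X := (1:ℝ)) (by norm_num) a (T - a)).trans ?_
    have h1 := Real.exp_one_lt_d9
    rw [le_div_iff₀ hL0]
    have h2 : 36 * L ≤ T := by simpa using g15
    have h3 : 12 * Real.exp 1 ≤ 36 := by linarith
    have h4 : 12 * Real.exp 1 * L ≤ 36 * L := by gcongr
    exact h4.trans h2
  have hlogm : |(∫ t in Icc a (T - a), Real.log (t / (2 * Real.pi))) - T * (Real.log (T / (2 * Real.pi)) - 1)| ≤ T / L := by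
    have e1 : ∫ t in Icc a (T - a), Real.log (t / (2 * Real.pi)) = (T * Real.log (T / (2 * Real.pi)) - T) - (a * Real.log (a / (2 * Real.pi)) - a) - ∫ t in (T - a)..T, Real.log (t / (2 * Real.pi)) := by
      rw [integral_Icc_eq_integral_Ioc, ← intervalIntegral.integral_of_le haa, int_log2pi ha0 haa, int_log2pi (by linarith) (by linarith)]
      ring
    have h1 : |∫ t in (T - a)..T, Real.log (t / (2 * Real.pi))| ≤ L * a := by
      have := intervalIntegral.norm_integral_le_of_norm_le_const (a := T - a) (b := T) (C := L) (f := fun t : ℝ => Real.log (t / (2 * Real.pi))) (by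
        intro t ht
        rw [uIoc_of_le (by linarith)] at ht
        rw [Real.norm_eq_abs]
        exact log2pi_abs hL (by linarith) (by linarith [ht.1]) ht.2)
      rw [Real.norm_eq_abs, show T - (T - a) = a by ring, abs_of_pos ha0] at this
      exact this
    have h2 : |a * Real.log (a / (2 * Real.pi))| ≤ a * L := by
      rw [abs_mul, abs_of_pos ha0]
      have := log2pi_abs (t := a) hL (by linarith) (by linarith) (by linarith)
      gcongr
    have h3 : a * L + L * a + a ≤ T / L := by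
      rw [le_div_iff₀ hL0]
      have h4 : (80 * CLA + 4) * L ^ 2 * a ≤ T := by rw [ha]; exact g12
      have h5 : 0 ≤ CLA * L ^ 2 * a := by positivity
      have h6 : a * L ≤ a * L ^ 2 := by
        apply mul_le_mul_of_nonneg_left _ ha0.le
        exact le_self_pow₀ (by linarith : 1 ≤ L) (by norm_num)
      have e2 : (a * L + L * a + a) * L = 2 * (a * L ^ 2) + a * L := by ring
      have e3 : (80 * CLA + 4) * L ^ 2 * a = 80 * (CLA * L ^ 2 * a) + 4 * (a * L ^ 2) := by ring
      have h7 : 0 ≤ a * L ^ 2 := by positivity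
      rw [e2]
      linarith
    rw [e1]
    have a1 := abs_le.mp h1
    have a2 := abs_le.mp h2
    rw [abs_le]
    constructor
    · linarith [a1.1, a1.2, a2.1, a2.2]
    · linarith [a1.1, a1.2, a2.1, a2.2]
  -- the complement
  have hZT : ∀ ρ ∈ ZT T, 0 ≤ (ρ:ℂ).im ∧ (ρ:ℂ).im ≤ T := fun ρ hρ => mem_ZT.mp hρ
  have hcf := compl_first (T := T) (X := 1) (a := a) (b := T - a) (M := Real.sqrt T) (by linarith) le_rfl (by linarith) ha0.le (by linarith) hZT
  rw [sum_ZT_mx, ← hL] at hcf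
  have hcf0 : 0 ≤ ∫ t in (Icc a (T - a))ᶜ, Yf (ZT T) 1 t := integral_nonneg fun t => Yf_nonneg _ one_pos t
  have hcf2 : ∫ t in (Icc a (T - a))ᶜ, Yf (ZT T) 1 t ≤ 2 * (T / L) := by
    refine hcf.trans ?_
    have r1 : Real.sqrt T ^ (-(3/4) : ℝ) = T ^ (-(3/8) : ℝ) := by
      rw [hsT, ← Real.rpow_mul hT0'.le]
      norm_num
    have hp : 0 < T ^ (-(3/8) : ℝ) := Real.rpow_pos_of_pos hT0' _
    have r6 : T * T ^ (-(3/8) : ℝ) = T ^ (5/8 : ℝ) := by
      nth_rewrite 1 [← Real.rpow_one T]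
      rw [← Real.rpow_add hT0']
      norm_num
    have k1 : 20 * CLA * L * (a + (T - (T - a)) + 2 * Real.sqrt T) ≤ T / L := by
      rw [le_div_iff₀ hL0]
      have h4 : (80 * CLA + 4) * L ^ 2 * a ≤ T := by rw [ha]; exact g12
      have h7 : 0 ≤ a * L ^ 2 := by positivity
      calc 20 * CLA * L * (a + (T - (T - a)) + 2 * Real.sqrt T) * L ≤ 20 * CLA * L * (4 * a) * L := by
            have : a + (T - (T - a)) + 2 * Real.sqrt T ≤ 4 * a := by linarith
            gcongr
        _ = (80 * CLA + 4) * L ^ 2 * a - 4 * (a * L ^ 2) := by ring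
        _ ≤ T := by linarith
    have k2 : 20 * Real.sqrt T ^ (-(3/4) : ℝ) * NT T * C1 ≤ T / L := by
      rw [r1, le_div_iff₀ hL0]
      calc 20 * T ^ (-(3/8) : ℝ) * NT T * C1 * L ≤ 20 * T ^ (-(3/8) : ℝ) * (T * L) * C1 * L := by gcongr
        _ = 20 * C1 * L ^ 2 * (T * T ^ (-(3/8) : ℝ)) := by ring
        _ = 20 * C1 * L ^ 2 * T ^ (5/8 : ℝ) := by rw [r6]
        _ ≤ (20 * C1 + 1) * L ^ 2 * T ^ (5/8 : ℝ) := by gcongr; linarith
        _ ≤ T := g13
    linarith
  have htot : ∫ t, Yf (ZT T) 1 t = 2 * Real.pi / 1 * NT T := Yf_integral T one_pos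
  have hsplit := integral_add_compl (μ := volume) (measurableSet_Icc (a := a) (b := T - a)) (Yf_integrable (ZT T) (X := 1) one_pos)
  rw [htot, div_one] at hsplit
  have hfin : |2 * Real.pi * NT T - T * (Real.log (T / (2 * Real.pi)) - 1)| ≤ (K + 10) * (T / L) := by
    have hTL : 0 ≤ T / L := by positivity
    have hKTL : 0 ≤ K * (T / L) := by positivity
    have b1 := abs_le.mp hint
    have b2 := abs_le.mp hPSm
    have b3 := abs_le.mp hlogm
    have e1 : (K + 5) / 2 * (T / L) = K * (T / L) / 2 + 5 / 2 * (T / L) := by ring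
    have e2 : (K + 10) * (T / L) = K * (T / L) + 10 * (T / L) := by ring
    rw [e1] at b1
    rw [e2, abs_le]
    constructor
    · linarith [b1.1, b1.2, b2.1, b2.2, b3.1, b3.2]
    · linarith [b1.1, b1.2, b2.1, b2.2, b3.1, b3.2]
  have hlogT : Real.log (T / (2 * Real.pi)) = L - Real.log (2 * Real.pi) := by
    rw [Real.log_div hT0'.ne' (by positivity), hL]
  rw [hlogT] at hfin
  have hSN : SN T = T * L / (2 * Real.pi) := by rw [hL]; rfl
  have e1 : NT T - SN T * (1 - (1 + Real.log (2 * Real.pi)) / L) = (1 / (2 * Real.pi)) * (2 * Real.pi * NT T - T * (L - Real.log (2 * Real.pi) - 1)) := by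
    rw [hSN]
    field_simp
    ring
  have e2 : (K + 10) * (SN T / L ^ 2) = (1 / (2 * Real.pi)) * ((K + 10) * (T / L)) := by
    rw [hSN]
    field_simp
  rw [e1, e2, abs_mul, abs_of_pos (by positivity : 0 < 1 / (2 * Real.pi))]
  gcongr

end Pool.Agent.Helper57.US
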