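import Pool.Agent.Helper57.LS.TwoSided

namespace Pool.Agent.Helper57.US

open Set MeasureTheory Filter Topology
open Pool.Agent.Helper57.LH
open Pool.Agent.Helper57.Zeta
open Pool.Agent.Helper57.LS

lemma Kd_wg {T t τ : ℝ} (hT : 1 ≤ T) (ht0 : 0 ≤ t) (htT : t ≤ T) (h1 : 1 ≤ |t - τ|) (h : T ^ (3/4 : ℝ) / 2 ≤ |t - τ|) :
    Kd 1 (t - τ) * wg τ ≤ 2056 * T ^ (-(1/16) : ℝ) * wf (t - τ) := by
  have hT0 : 0 < T := by linarith
  obtain ⟨w, hw⟩ : ∃ w, w = |t - τ| := ⟨_, rfl⟩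
  rw [← hw] at h1 h
  have hw0 : 0 < w := by linarith
  obtain ⟨y, hy⟩ : ∃ y, y = w ^ (1/12 : ℝ) := ⟨_, rfl⟩
  obtain ⟨z, hz⟩ : ∃ z, z = T ^ (1/16 : ℝ) := ⟨_, rfl⟩
  have hy1 : 1 ≤ y := by rw [hy]; exact Real.one_le_rpow h1 (by norm_num)
  have hz1 : 1 ≤ z := by rw [hz]; exact Real.one_le_rpow hT (by norm_num)
  have hy12 : y ^ 12 = w := by
    rw [hy, ← Real.rpow_natCast, ← Real.rpow_mul hw0.le]; norm_num
  have hz16 : z ^ 16 = T := by
    rw [hz, ← Real.rpow_natCast, ← Real.rpow_mul hT0.le]; norm_num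
  have hz12 : z ^ 12 = T ^ (3/4 : ℝ) := by
    rw [hz, ← Real.rpow_natCast, ← Real.rpow_mul hT0.le]; norm_num
  have hzm : T ^ (-(1/16) : ℝ) = z⁻¹ := by rw [hz, Real.rpow_neg hT0.le]
  have hy0 : 0 < y := by linarith
  have hz0 : 0 < z := by linarith
  have hzy : z ≤ 2 * y := by
    have h2 : z ^ 12 ≤ (2 * y) ^ 12 := by
      rw [mul_pow, hy12, hz12]
      linarith
    exact le_of_pow_le_pow_left₀ (by norm_num) (by positivity) h2
  -- wg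
  have hwg : wg τ ≤ 257 * y ^ 8 := by
    unfold wg
    rw [Real.sqrt_le_iff]
    refine ⟨by positivity, ?_⟩
    have h3 : |τ| ≤ T + w := by
      rw [hw, abs_sub_comm]
      have := abs_add_le t (τ - t)
      rw [abs_of_nonneg ht0] at this
      have e : t + (τ - t) = τ := by ring
      rw [e] at this
      linarith
    have h4 : T ≤ 65536 * y ^ 16 := by
      rw [← hz16]
      calc z ^ 16 ≤ (2 * y) ^ 16 := by gcongr
        _ = _ := by rw [mul_pow]; norm_num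
    have h5 : w ≤ y ^ 16 := by
      rw [← hy12]
      exact pow_le_pow_right₀ hy1 (by norm_num)
    have h6 : 1 ≤ y ^ 16 := one_le_pow₀ hy1
    have e : (257 * y ^ 8) ^ 2 = 66049 * y ^ 16 := by ring
    rw [e]
    linarith
  have hK : Kd 1 (t - τ) ≤ (y ^ 24)⁻¹ := by
    unfold Kd
    apply inv_anti₀ (by positivity)
    rw [one_mul, ← sq_abs, ← hw, ← hy12]
    nlinarith
  have hwf : (y ^ 15)⁻¹ ≤ 4 * wf (t - τ) := by
    unfold wf
    rw [Real.norm_eq_abs, ← hw, ← hy12, Real.rpow_neg (by positivity)]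
    have h7 : (1 + y ^ 12) ^ (5/4 : ℝ) ≤ 4 * y ^ 15 := by
      have h8 : 1 + y ^ 12 ≤ 2 * y ^ 12 := by
        have : 1 ≤ y ^ 12 := one_le_pow₀ hy1
        linarith
      calc (1 + y ^ 12) ^ (5/4 : ℝ) ≤ (2 * y ^ 12) ^ (5/4 : ℝ) := Real.rpow_le_rpow (by positivity) h8 (by norm_num)
        _ = 2 ^ (5/4 : ℝ) * y ^ 15 := by
            rw [Real.mul_rpow (by norm_num) (by positivity), ← Real.rpow_natCast, ← Real.rpow_mul hy0.le, ← Real.rpow_natCast]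
            norm_num
        _ ≤ 4 * y ^ 15 := by
            gcongr
            calc (2:ℝ) ^ (5/4 : ℝ) ≤ 2 ^ (2:ℝ) := Real.rpow_le_rpow_of_exponent_le (by norm_num) (by norm_num)
              _ = 4 := by norm_num
    rw [← div_eq_mul_inv, inv_eq_one_div, div_le_div_iff₀ (by positivity) (by positivity)]
    linarith
  rw [hzm]
  have hwfn := wf_nonneg (t - τ)
  have hwg0 : 0 ≤ wg τ := le_trans zero_le_one (wg_one_le τ)
  calc Kd 1 (t - τ) * wg τ ≤ (y ^ 24)⁻¹ * (257 * y ^ 8) := by gcongr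
    _ = 257 * (y ^ 15)⁻¹ * y⁻¹ := by
        field_simp
    _ ≤ 257 * (4 * wf (t - τ)) * (2 * z⁻¹) := by
        gcongr
        rw [← div_eq_mul_inv, inv_eq_one_div, div_le_div_iff₀ hy0 hz0]
        linarith
    _ = _ := by ring

lemma Kd_mono {X w : ℝ} (hX : 1 ≤ X) : Kd X w ≤ Kd 1 w := by
  unfold Kd
  apply inv_anti₀ (by positivity)
  rw [one_mul, mul_pow]
  have h1 : 1 ≤ X ^ 2 := one_le_pow₀ hX
  nlinarith [sq_nonneg w]

/-- constant for the tail -/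
noncomputable def CTl : ℝ := 5 * (3 / 2) * (5 / 2 * CA) * 2056 * C1

lemma CTl_nonneg : 0 ≤ CTl := by
  have := CA_nonneg
  have := C1_nonneg
  unfold CTl; positivity

/-- tail of zeros outside `[0,T]` seen from well inside -/
lemma tail_far {T X t : ℝ} (hT : 1 ≤ T) (ha4 : 4 ≤ T ^ (3/4 : ℝ)) (hX : 1 ≤ X) (ht : T ^ (3/4 : ℝ) ≤ t) (htT : t ≤ T - T ^ (3/4 : ℝ))
    (F : Finset ZS) (hF : ∀ ρ ∈ F, ρ ∉ ZT T) :
    ∑ ρ ∈ F, mx ρ * gs X 0 (t - (ρ:ℂ).im) ≤ CTl * T ^ (-(1/16) : ℝ) := by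
  classical
  have hX0 : 0 < X := by linarith
  obtain ⟨a, ha⟩ : ∃ a, a = T ^ (3/4 : ℝ) := ⟨_, rfl⟩
  rw [← ha] at ha4 ht htT
  have hfar : ∀ ρ ∈ F, a ≤ |t - (ρ:ℂ).im| := by
    intro ρ hρ
    have hn := hF ρ hρ
    rw [mem_ZT, not_and_or, not_le, not_le] at hn
    rw [le_abs]
    rcases hn with h | h
    · left; linarith
    · right; linarith
  set Iρ : ZS → Set ℝ := fun ρ => Icc ((ρ:ℂ).im - 1) ((ρ:ℂ).im + 1) with hIρ
  have hmemI : ∀ (ρ : ZS) (τ : ℝ), τ ∈ Iρ ρ ↔ |τ - (ρ:ℂ).im| ≤ 1 := by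
    intro ρ τ
    rw [hIρ]
    simp only [mem_Icc, abs_le]
    constructor <;> rintro ⟨h1, h2⟩ <;> constructor <;> linarith
  have hKc : Continuous (fun τ => Kd 1 (t - τ)) := (Kd_cont 1).comp (by fun_prop)
  have h1 : ∀ ρ : ZS, gs X 0 (t - (ρ:ℂ).im) ≤ 5 * (3 / 2) * ∫ τ in Iρ ρ, Kd 1 (t - τ) := by
    intro ρ
    have h0 : gs X 0 (t - (ρ:ℂ).im) ≤ 5 * Kd 1 (t - (ρ:ℂ).im) :=
      (gs_zero_decay hX0 _).trans (by gcongr; exact Kd_mono hX)
    have h2 : ∫ _ in Iρ ρ, Kd 1 (t - (ρ:ℂ).im) / 3 ≤ ∫ τ in Iρ ρ, Kd 1 (t - τ) := by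
      apply setIntegral_mono_on
      · exact continuous_const.continuousOn.integrableOn_compact isCompact_Icc
      · exact hKc.continuousOn.integrableOn_compact isCompact_Icc
      · exact measurableSet_Icc
      · intro τ hτ
        have := Kd_smooth (L := 1) (B := 1) (X := 1) (t := t) (τ := τ) (γ := (ρ:ℂ).im) one_pos le_rfl (by norm_num) (by
          rw [div_one]; exact (hmemI ρ τ).mp hτ)
        linarith
    rw [setIntegral_const, hIρ, Real.volume_real_Icc_of_le (by linarith), smul_eq_mul] at h2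
    have e : ((ρ:ℂ).im + 1 - ((ρ:ℂ).im - 1)) * (Kd 1 (t - (ρ:ℂ).im) / 3) = 2 / 3 * Kd 1 (t - (ρ:ℂ).im) := by ring
    rw [e] at h2
    calc gs X 0 (t - (ρ:ℂ).im) ≤ 5 * (3 / 2) * (2 / 3 * Kd 1 (t - (ρ:ℂ).im)) := by linarith
      _ ≤ _ := by gcongr
  set h : ℝ → ℝ := fun τ => ∑ ρ ∈ F, mx ρ * (Iρ ρ).indicator (fun τ => Kd 1 (t - τ)) τ with hh
  have hint1 : ∀ ρ : ZS, Integrable ((Iρ ρ).indicator (fun τ => Kd 1 (t - τ))) := by
    intro ρ
    rw [integrable_indicator_iff measurableSet_Icc]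
    exact hKc.continuousOn.integrableOn_compact isCompact_Icc
  have hint : Integrable h := by
    rw [hh]
    exact integrable_finsetSum F fun ρ _ => (hint1 ρ).const_mul _
  have h2 : ∑ ρ ∈ F, mx ρ * gs X 0 (t - (ρ:ℂ).im) ≤ 5 * (3 / 2) * ∫ τ, h τ := by
    have e1 : ∫ τ, h τ = ∑ ρ ∈ F, mx ρ * ∫ τ in Iρ ρ, Kd 1 (t - τ) := by
      rw [hh, integral_finsetSum F fun ρ _ => (hint1 ρ).const_mul _]
      refine Finset.sum_congr rfl fun ρ _ => ?_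
      rw [integral_const_mul, integral_indicator measurableSet_Icc]
    rw [e1, Finset.mul_sum]
    refine Finset.sum_le_sum fun ρ _ => ?_
    have := mx_nonneg (ρ:ℂ)
    calc mx ρ * gs X 0 (t - (ρ:ℂ).im) ≤ mx ρ * (5 * (3 / 2) * ∫ τ in Iρ ρ, Kd 1 (t - τ)) := by
          have := h1 ρ
          gcongr
      _ = _ := by ring
  have hpt : ∀ τ, h τ = Kd 1 (t - τ) * ∑ ρ ∈ F.filter (fun ρ => τ ∈ Iρ ρ), mx ρ := by
    intro τ
    rw [hh, Finset.sum_filter, Finset.mul_sum]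
    refine Finset.sum_congr rfl fun ρ _ => ?_
    by_cases hm : τ ∈ Iρ ρ
    · rw [indicator_of_mem hm, if_pos hm]; ring
    · rw [indicator_of_notMem hm, if_neg hm]; ring
  have hCA := CA_nonneg
  have hTp : 0 < T ^ (-(1/16) : ℝ) := Real.rpow_pos_of_pos (by linarith) _
  have hb : ∀ τ, h τ ≤ 5 / 2 * CA * (2056 * T ^ (-(1/16) : ℝ)) * wf (t - τ) := by
    intro τ
    rw [hpt]
    have hwf := wf_nonneg (t - τ)
    rcases (F.filter (fun ρ => τ ∈ Iρ ρ)).eq_empty_or_nonempty with he | ⟨ρ, hρ⟩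
    · rw [he, Finset.sum_empty, mul_zero]; positivity
    · rw [Finset.mem_filter] at hρ
      have h5 := (hmemI ρ τ).mp hρ.2
      have h6 := hfar ρ hρ.1
      have h7 : a - 1 ≤ |t - τ| := by
        have := abs_sub_le t τ (ρ:ℂ).im
        linarith
      have h3 : ∑ ρ ∈ F.filter (fun ρ => τ ∈ Iρ ρ), mx ρ ≤ 5 / 2 * Afun τ := loc_count _ τ (by
        intro ρ' hρ'
        rw [Finset.mem_filter] at hρ'
        rw [abs_sub_comm]
        exact (hmemI ρ' τ).mp hρ'.2)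
      have hA2 : Afun τ ≤ CA * wg τ := (le_abs_self _).trans (Afun_bound τ)
      have hK := (Kd_pos 1 (t - τ)).le
      have hkw := Kd_wg (T := T) (t := t) (τ := τ) hT (by linarith) (by linarith) (by linarith) (by rw [← ha]; linarith)
      calc Kd 1 (t - τ) * ∑ ρ ∈ F.filter (fun ρ => τ ∈ Iρ ρ), mx ρ ≤ Kd 1 (t - τ) * (5 / 2 * (CA * wg τ)) := by
            gcongr
            exact h3.trans (by gcongr)
        _ = 5 / 2 * CA * (Kd 1 (t - τ) * wg τ) := by ring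
        _ ≤ 5 / 2 * CA * (2056 * T ^ (-(1/16) : ℝ) * wf (t - τ)) := by gcongr
        _ = _ := by ring
  have hI : ∫ τ, h τ ≤ 5 / 2 * CA * (2056 * T ^ (-(1/16) : ℝ)) * C1 := by
    have e : ∫ τ, 5 / 2 * CA * (2056 * T ^ (-(1/16) : ℝ)) * wf (t - τ) = 5 / 2 * CA * (2056 * T ^ (-(1/16) : ℝ)) * C1 := by
      rw [integral_const_mul]
      congr 1
      exact integral_sub_left_eq_self wf volume t
    rw [← e]
    exact integral_mono hint ((wf_integrable.comp_sub_left t).const_mul _) hb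
  calc ∑ ρ ∈ F, mx ρ * gs X 0 (t - (ρ:ℂ).im) ≤ 5 * (3 / 2) * ∫ τ, h τ := h2
    _ ≤ 5 * (3 / 2) * (5 / 2 * CA * (2056 * T ^ (-(1/16) : ℝ)) * C1) := by gcongr
    _ = _ := by unfold CTl; ring

/-- two sided approximation of the Fejer sum over the zeros in `[0,T]`, away from the ends -/
theorem Y_far {T L B X t : ℝ} (hL : L = Real.log T) (hL40 : 40 ≤ L) (hB : 9600 ≤ B) (hX : X = L / B) (hX1 : 1 ≤ X)
    (hT3 : 3 ≤ T) (ha : 20 ≤ T ^ (3/4 : ℝ)) (ht : T ^ (3/4 : ℝ) ≤ t) (htT : t ≤ T - T ^ (3/4 : ℝ)) {Ψ : ℝ → ℝ} (hΨc : Continuous Ψ) (hΨ : DomPsi T B Ψ) :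
    |Yf (ZT T) X t - (MT X t / X - PS X t)| ≤ 16 * RB T L B X Ψ t + CTl * T ^ (-(1/16) : ℝ) := by
  have hX0 : 0 < X := by linarith
  have hT1 : 1 ≤ T := by linarith
  have ha0 : 0 < T ^ (3/4 : ℝ) := by positivity
  have htT' : t ≤ T := by linarith
  set d : ZS → ℝ := fun ρ => mx ρ * |gs X ((ρ:ℂ).re - 1 / 2) (t - (ρ:ℂ).im) - gs X 0 (t - (ρ:ℂ).im)| with hd
  have hd0 : ∀ ρ, 0 ≤ d ρ := fun ρ => mul_nonneg (mx_nonneg _) (abs_nonneg _)
  have hfin := E1_finite hL hL40 hB hX hX1 (by linarith : 20 ≤ t) htT' hΨc hΨ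
  have hds : Summable d := summable_of_sum_le hd0 (fun F => hfin F)
  have hdt : ∑' ρ, d ρ ≤ 16 * RB T L B X Ψ t := hds.tsum_le_of_sum_le (fun F => hfin F)
  have hex := explicit hX0 t
  have hg0 : ∀ ρ : ZS, 0 ≤ mx ρ * gs X 0 (t - (ρ:ℂ).im) := fun ρ => mul_nonneg (mx_nonneg _) (gs_zero_nonneg hX0 _)
  have hle : ∀ ρ : ZS, mx ρ * gs X 0 (t - (ρ:ℂ).im) ≤ mx ρ * gs X ((ρ:ℂ).re - 1 / 2) (t - (ρ:ℂ).im) + d ρ := by
    intro ρ
    rw [hd]
    simp only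
    rw [← mul_add]
    apply mul_le_mul_of_nonneg_left _ (mx_nonneg _)
    have := neg_abs_le (gs X ((ρ:ℂ).re - 1 / 2) (t - (ρ:ℂ).im) - gs X 0 (t - (ρ:ℂ).im))
    linarith
  have hle2 : ∀ ρ : ZS, mx ρ * gs X ((ρ:ℂ).re - 1 / 2) (t - (ρ:ℂ).im) - d ρ ≤ mx ρ * gs X 0 (t - (ρ:ℂ).im) := by
    intro ρ
    rw [hd]
    simp only
    rw [← mul_sub]
    apply mul_le_mul_of_nonneg_left _ (mx_nonneg _)
    have := le_abs_self (gs X ((ρ:ℂ).re - 1 / 2) (t - (ρ:ℂ).im) - gs X 0 (t - (ρ:ℂ).im))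
    linarith
  have hsum2 := hex.summable.add hds
  have hg0s : Summable (fun ρ : ZS => mx ρ * gs X 0 (t - (ρ:ℂ).im)) := Summable.of_nonneg_of_le hg0 hle hsum2
  have hup : ∑' ρ : ZS, mx ρ * gs X 0 (t - (ρ:ℂ).im) ≤ (MT X t / X - PS X t) + 16 * RB T L B X Ψ t := by
    calc ∑' ρ : ZS, mx ρ * gs X 0 (t - (ρ:ℂ).im)
        ≤ ∑' ρ : ZS, (mx ρ * gs X ((ρ:ℂ).re - 1 / 2) (t - (ρ:ℂ).im) + d ρ) := hg0s.tsum_le_tsum hle hsum2
      _ = (MT X t / X - PS X t) + ∑' ρ, d ρ := by rw [hex.summable.tsum_add hds, hex.tsum_eq]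
      _ ≤ _ := by linarith
  have hlo : (MT X t / X - PS X t) - 16 * RB T L B X Ψ t ≤ ∑' ρ : ZS, mx ρ * gs X 0 (t - (ρ:ℂ).im) := by
    calc (MT X t / X - PS X t) - 16 * RB T L B X Ψ t ≤ (MT X t / X - PS X t) - ∑' ρ, d ρ := by linarith
      _ = ∑' ρ : ZS, (mx ρ * gs X ((ρ:ℂ).re - 1 / 2) (t - (ρ:ℂ).im) - d ρ) := by
          rw [hex.summable.tsum_sub hds, hex.tsum_eq]
      _ ≤ _ := (hex.summable.sub hds).tsum_le_tsum hle2 hg0s
  have hYle : Yf (ZT T) X t ≤ ∑' ρ : ZS, mx ρ * gs X 0 (t - (ρ:ℂ).im) := hg0s.sum_le_tsum (ZT T) (fun i _ => hg0 i)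
  have hYge : (∑' ρ : ZS, mx ρ * gs X 0 (t - (ρ:ℂ).im)) ≤ Yf (ZT T) X t + CTl * T ^ (-(1/16) : ℝ) := by
    apply hg0s.tsum_le_of_sum_le
    intro F
    classical
    rw [← Finset.sum_filter_add_sum_filter_not F (fun ρ => ρ ∈ ZT T)]
    apply add_le_add
    · unfold Yf
      apply Finset.sum_le_sum_of_subset_of_nonneg
      · intro ρ hρ
        exact (Finset.mem_filter.mp hρ).2
      · intro ρ _ _
        exact hg0 ρ
    · apply tail_far hT1 (by linarith) hX1 ht htT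
      intro ρ hρ
      exact (Finset.mem_filter.mp hρ).2
  have hRB : 0 ≤ CTl * T ^ (-(1/16) : ℝ) := by
    have := CTl_nonneg
    positivity
  rw [abs_le]
  constructor <;> linarith

end Pool.Agent.Helper57.US
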