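import Pool.Agent.Helper57.US.NLaw
import Pool.Agent.Helper4.PU.BE

namespace Pool.Agent.Helper57.US

open Set MeasureTheory Filter Topology
open Pool.Agent.Helper57.LH
open Pool.Agent.Helper57.Zeta
open Pool.Agent.Helper57.LS
open Pool.Agent.Helper57.PC (mult IsNontrivialZero zerosUpTo nd SN SN_pos)
open Pool.Agent.Helper4.PU (AT ULaw NLaw)

theorem NLaw_holds : ∃ C : ℝ, 0 ≤ C ∧ NLaw C := NLaw_ex

lemma ell_le : Real.log (2 * Real.pi) ≤ 2 := by
  have hpi := Real.pi_pos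
  have h7 : (2:ℝ) * Real.pi ≤ Real.exp 2 := by
    have h8 : Real.exp 2 = Real.exp 1 ^ 2 := by rw [← Real.exp_nat_mul]; norm_num
    have h9 := Real.exp_one_gt_d9
    have h10 := Real.pi_lt_d2
    rw [h8]
    nlinarith
  calc Real.log (2 * Real.pi) ≤ Real.log (Real.exp 2) := Real.log_le_log (by positivity) h7
    _ = 2 := Real.log_exp 2

lemma E2U {T L B a δ : ℝ} (hL : L = Real.log T) (hT0' : 0 < T) (hB0 : 0 < B) (hBL : B ≤ L) (hL0 : 0 < L) (hsa : Real.sqrt T ≤ a)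
    (ha28 : 28 ≤ a) (hδ1 : |δ| ≤ 7)
    (g8 : (2400 * CLA * (20 * CLA + 2)) * L ^ 3 * a ≤ T) (g9 : (400 * C1 * (20 * CLA + 2)) * L ^ 3 * T ^ (5/8 : ℝ) ≤ T)
    (g16 : NT T ≤ T * L) :
    (20 * CLA * L + 2 * B) * f0 T a (T - a) (Real.sqrt T) δ ≤ T / B := by
  have hCLA := CLA_pos
  have hC1 := C1_nonneg
  have hsT : Real.sqrt T = T ^ (1/2 : ℝ) := Real.sqrt_eq_rpow T
  have ha0 : 0 < a := by linarith
  have r1 : Real.sqrt T ^ (-(3/4) : ℝ) = T ^ (-(3/8) : ℝ) := by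
    rw [hsT, ← Real.rpow_mul hT0'.le]
    norm_num
  have hp : 0 < T ^ (-(3/8) : ℝ) := Real.rpow_pos_of_pos hT0' _
  have r6 : T * T ^ (-(3/8) : ℝ) = T ^ (5/8 : ℝ) := by
    nth_rewrite 1 [← Real.rpow_one T]
    rw [← Real.rpow_add hT0']
    norm_num
  have hp2 : 0 < T ^ (5/8 : ℝ) := Real.rpow_pos_of_pos hT0' _
  have h2 : f0 T a (T - a) (Real.sqrt T) δ ≤ 120 * CLA * L * a + 20 * C1 * L * T ^ (5/8 : ℝ) := by
    unfold f0
    rw [← hL, r1]
    have h3 : 20 * CLA * L * (a + (T - (T - a)) + 4 * |δ| + 2 * Real.sqrt T) ≤ 20 * CLA * L * (6 * a) :=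
      mul_le_mul_of_nonneg_left (by linarith) (by positivity)
    have h4 : 20 * T ^ (-(3/8) : ℝ) * NT T * C1 ≤ 20 * C1 * L * T ^ (5/8 : ℝ) := by
      calc 20 * T ^ (-(3/8) : ℝ) * NT T * C1 ≤ 20 * T ^ (-(3/8) : ℝ) * (T * L) * C1 := by gcongr
        _ = 20 * C1 * L * (T * T ^ (-(3/8) : ℝ)) := by ring
        _ = _ := by rw [r6]
    have h5 : 20 * CLA * L * (6 * a) = 120 * CLA * L * a := by ring
    linarith
  have hf00 : 0 ≤ 120 * CLA * L * a + 20 * C1 * L * T ^ (5/8 : ℝ) := by positivity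
  rw [le_div_iff₀ hB0]
  calc (20 * CLA * L + 2 * B) * f0 T a (T - a) (Real.sqrt T) δ * B
      ≤ (20 * CLA * L + 2 * B) * (120 * CLA * L * a + 20 * C1 * L * T ^ (5/8 : ℝ)) * B := by gcongr
    _ ≤ (20 * CLA * L + 2 * L) * (120 * CLA * L * a + 20 * C1 * L * T ^ (5/8 : ℝ)) * L := by gcongr
    _ = (1 / 20) * ((2400 * CLA * (20 * CLA + 2)) * L ^ 3 * a) + (1 / 20) * ((400 * C1 * (20 * CLA + 2)) * L ^ 3 * T ^ (5/8 : ℝ)) := by ring
    _ ≤ (1 / 20) * T + (1 / 20) * T := by gcongr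
    _ ≤ T := by linarith

lemma combU {G PP N2 w S c ATB B T e1 e2 e3 e4 e5 e6 e7 : ℝ} (h1 : |G - (PP + N2 - B ^ 2 * w)| ≤ e1 + e2) (h2 : |PP - w / 2 * S| ≤ e3)
    (h3 : |w / 2 * S - T * c| ≤ e4 + e7) (h4 : |N2 - B ^ 2 * T - T * ATB| ≤ e5) (h10 : |B ^ 2 * (T - w)| ≤ e6) :
    |G - T * (ATB + c)| ≤ e1 + e2 + e3 + e4 + e5 + e6 + e7 := by
  have e : G - T * (ATB + c) = (G - (PP + N2 - B ^ 2 * w)) + (PP - w / 2 * S) +
      (w / 2 * S - T * c) + (N2 - B ^ 2 * T - T * ATB) + B ^ 2 * (T - w) := by ring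
  rw [e]
  rw [abs_le] at h1 h2 h3 h4 h10 ⊢
  constructor
  · linarith [h1.1, h2.1, h3.1, h4.1, h10.1]
  · linarith [h1.2, h2.2, h3.2, h4.2, h10.2]

/-- the density term -/
lemma densU {C' T L B X N A ℓ : ℝ} (hT : 0 < T) (hL0 : 0 < L) (hB0 : 0 < B) (hBL : B ≤ L) (hX : X = L / B) (hC' : 0 ≤ C') (hℓ0 : 0 ≤ ℓ) (hℓ2 : ℓ ≤ 2)
    (hN : |N - (T * L / (2 * Real.pi)) * (1 - (1 + ℓ) / L)| ≤ C' * ((T * L / (2 * Real.pi)) / L ^ 2)) (hA : A = ((L - ℓ) ^ 2 - 2 * (L - ℓ) + 2) / L ^ 2) :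
    |2 * B * (2 * Real.pi / X * N) - B ^ 2 * T - T * (A * B ^ 2)| ≤ (2 * C' + 10) * (T * (B / L)) := by
  have hpi := Real.pi_pos
  have e : 2 * B * (2 * Real.pi / X * N) - B ^ 2 * T - T * (A * B ^ 2) = (4 * Real.pi * B ^ 2 / L) * (N - (T * L / (2 * Real.pi)) * (1 - (1 + ℓ) / L)) -
      T * (B / L) * ((B / L) * (ℓ ^ 2 + 2 * ℓ + 2)) := by
    rw [hA, hX]
    field_simp
    ring
  rw [e]
  refine (abs_sub _ _).trans ?_
  have hBL1 : B / L ≤ 1 := by rw [div_le_one hL0]; exact hBL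
  have hBL0 : 0 ≤ B / L := by positivity
  rw [abs_mul, abs_of_nonneg (by positivity : 0 ≤ 4 * Real.pi * B ^ 2 / L), abs_of_nonneg (by positivity : 0 ≤ T * (B / L) * ((B / L) * (ℓ ^ 2 + 2 * ℓ + 2)))]
  have h1 : 4 * Real.pi * B ^ 2 / L * |N - (T * L / (2 * Real.pi)) * (1 - (1 + ℓ) / L)| ≤ 2 * C' * (T * (B / L)) := by
    calc 4 * Real.pi * B ^ 2 / L * |N - (T * L / (2 * Real.pi)) * (1 - (1 + ℓ) / L)| ≤ 4 * Real.pi * B ^ 2 / L * (C' * ((T * L / (2 * Real.pi)) / L ^ 2)) := by gcongr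
      _ = 2 * C' * (T * (B / L)) * (B / L) := by
          field_simp
          ring
      _ ≤ 2 * C' * (T * (B / L)) * 1 := by gcongr
      _ = _ := by ring
  have h2 : T * (B / L) * ((B / L) * (ℓ ^ 2 + 2 * ℓ + 2)) ≤ T * (B / L) * (1 * 10) := by
    have : ℓ ^ 2 + 2 * ℓ + 2 ≤ 10 := by nlinarith
    gcongr
  linarith

theorem Y_corrU : ∃ C : ℝ, 0 < C ∧ ∀ᶠ T : ℝ in atTop, ∀ B v : ℝ, 9600 ≤ B → B ≤ Real.log T → |v| ≤ Real.log T →
    |(∫ t, Yf (ZT T) (Real.log T / B) t * Yf (ZT T) (Real.log T / B) (t + -(2 * Real.pi * v / Real.log T))) - T * (AT T * B ^ 2 + cS (v / B))| ≤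
      C * (T * (1 / B + (B + |v|) / Real.log T)) := by
  obtain ⟨K, hK, hE2⟩ := E_l2U
  obtain ⟨C', hC', hN'⟩ := NLaw_ex
  have hCLA := CLA_pos
  have hC1 := C1_nonneg
  have hCNP := CNP_nonneg
  have hCMe := CMe_pos
  have hpi := Real.pi_pos
  refine ⟨12 * Real.sqrt K + 2 * K + 2 * C' + 2 * (CNP + 3 * CMe) + 16 * CMe + 20, by positivity, ?_⟩
  have hl := Real.tendsto_log_atTop
  filter_upwards [hE2, hN', eventually_ge_atTop (1600:ℝ), hl.eventually_ge_atTop 40,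
    log_pow_le (2400 * CLA * (20 * CLA + 2)) 3 (s := 3/4) (by norm_num), log_pow_le (400 * C1 * (20 * CLA + 2)) 3 (s := 5/8) (by norm_num),
    log_pow_le 40 1 (s := 3/9600) (by norm_num), log_pow_le 4 3 (s := 3/4) (by norm_num), NT_le_ev] with T g1 gN g2 g3 g8 g9 g10 g11 g16 B v hB hBL hv
  have hT0' : 0 < T := by linarith
  have hT3 : 3 ≤ T := by linarith
  have hB0 : 0 < B := by linarith
  have g1' := g1 B hB hBL
  have e8 : Real.exp (3 * (Real.log T / B)) = T ^ (3 / B) := by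
    rw [Real.rpow_def_of_pos hT0']; congr 1; ring
  have hAT : AT T = ((Real.log T - Real.log (2 * Real.pi)) ^ 2 - 2 * (Real.log T - Real.log (2 * Real.pi)) + 2) / Real.log T ^ 2 := rfl
  have hSNd : SN T = T * Real.log T / (2 * Real.pi) := rfl
  rw [hSNd] at gN
  obtain ⟨L, hL⟩ : ∃ L, L = Real.log T := ⟨_, rfl⟩
  obtain ⟨X, hX⟩ : ∃ X, X = L / B := ⟨_, rfl⟩
  rw [← hL] at g1' gN g3 g8 g9 g10 g11 g16 hBL hv hAT ⊢
  rw [← hX] at g1' ⊢
  rw [← hL, ← hX] at e8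
  have hL0 : 0 < L := by linarith
  have hX1 : 1 ≤ X := by rw [hX, le_div_iff₀ hB0]; linarith
  have hX0 : 0 < X := by linarith
  obtain ⟨a, ha⟩ : ∃ a, a = T ^ (3/4 : ℝ) := ⟨_, rfl⟩
  rw [← ha] at g1' g8 g11
  have hsT : Real.sqrt T = T ^ (1/2 : ℝ) := Real.sqrt_eq_rpow T
  have hsT20 : 40 ≤ Real.sqrt T := by
    rw [Real.le_sqrt (by norm_num) hT0'.le]
    linarith
  have haT2 : Real.sqrt T ≤ a := by
    rw [hsT, ha]
    exact Real.rpow_le_rpow_of_exponent_le (by linarith) (by norm_num)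
  have ha20 : 40 ≤ a := hsT20.trans haT2
  have ha0 : 0 < a := by linarith
  have hL3 : (1:ℝ) ≤ L ^ 3 := one_le_pow₀ (by linarith)
  have ha4 : 4 * a * L ^ 2 * L ≤ T := by
    calc 4 * a * L ^ 2 * L = 4 * L ^ 3 * a := by ring
      _ ≤ T := g11
  have haT : 100 * a ≤ T := by
    have h2 : (40:ℝ) ^ 3 ≤ L ^ 3 := by gcongr
    have h3 : 4 * (40:ℝ) ^ 3 * a ≤ 4 * L ^ 3 * a := by gcongr
    have h4 : 100 * a ≤ 4 * (40:ℝ) ^ 3 * a := mul_le_mul_of_nonneg_right (by norm_num) ha0.le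
    exact h4.trans (h3.trans g11)
  obtain ⟨δ, hδ⟩ : ∃ δ : ℝ, δ = -(2 * Real.pi * v / L) := ⟨_, rfl⟩
  rw [← hδ]
  have hδabs : |δ| = 2 * Real.pi * |v| / L := by
    rw [hδ, abs_neg, abs_div, abs_mul, abs_of_pos (by positivity : 0 < 2 * Real.pi), abs_of_pos hL0]
  have hδ1 : |δ| ≤ 7 := by
    rw [hδabs, div_le_iff₀ hL0]
    have h2 : 2 * Real.pi ≤ 7 := by linarith [Real.pi_lt_d2]
    calc 2 * Real.pi * |v| ≤ 7 * |v| := mul_le_mul_of_nonneg_right h2 (abs_nonneg v)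
      _ ≤ 7 * L := mul_le_mul_of_nonneg_left hv (by norm_num)
  have hδ0 := abs_nonneg δ
  have q3 : 40 * Real.exp (3 * X) ≤ T / B := by
    rw [e8, le_div_iff₀ hB0]
    have h1 : T ^ (3 / B) ≤ T ^ (3 / 9600 : ℝ) :=
      Real.rpow_le_rpow_of_exponent_le (by linarith) (by gcongr)
    calc 40 * T ^ (3 / B) * B ≤ 40 * T ^ (3 / 9600 : ℝ) * L := by gcongr
      _ = 40 * L ^ 1 * T ^ (3 / 9600 : ℝ) := by ring
      _ ≤ T := g10
  have hTB : T / B ≤ T := div_le_self hT0'.le (by linarith)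
  have hPS : ∫ t in Icc a (T - a), PS X t ^ 2 ≤ 9 * T := by
    rw [integral_Icc_eq_integral_Ioc, ← intervalIntegral.integral_of_le (by linarith : a ≤ T - a)]
    refine (PS_sq hX0 (by linarith)).trans ?_
    have := Real.exp_pos (3 * X)
    linarith
  have hdet := corr_det (T := T) (X := X) (a := a) (b := T - a) (M := Real.sqrt T) (δ := δ) (B := B) (η := K * (T / B ^ 2 + T * (B / L) ^ 2)) (p := 9 * T)
    hT3 hX1 (by linarith) ha0.le (by linarith) hB0.le (by linarith) g1' hPS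
  rw [← hL] at hdet
  obtain ⟨e0, he0⟩ : ∃ e0, e0 = T * (1 / B + (B + |v|) / L) := ⟨_, rfl⟩
  rw [← he0]
  have hv0 := abs_nonneg v
  have he0B : T / B ≤ e0 := by
    rw [he0]
    have : 0 ≤ T * ((B + |v|) / L) := by positivity
    have e : T * (1 / B + (B + |v|) / L) = T / B + T * ((B + |v|) / L) := by ring
    linarith
  have he0L : T * (B / L) ≤ e0 := by
    rw [he0]
    have : 0 ≤ T / B + T * (|v| / L) := by positivity
    have e : T * (1 / B + (B + |v|) / L) = T * (B / L) + (T / B + T * (|v| / L)) := by ring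
    linarith
  have he0v : T * (|v| / L) ≤ e0 := by
    rw [he0]
    have : 0 ≤ T / B + T * (B / L) := by positivity
    have e : T * (1 / B + (B + |v|) / L) = T * (|v| / L) + (T / B + T * (B / L)) := by ring
    linarith
  have he00 : 0 ≤ e0 := le_trans (by positivity) he0B
  have hBL1 : B / L ≤ 1 := by rw [div_le_one hL0]; exact hBL
  have hBL0 : 0 < B / L := by positivity
  have hiB0 : 0 < 1 / B := by positivity
  have hiB1 : 1 / B ≤ 1 := by rw [div_le_one hB0]; linarith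
  -- E1
  have hE1 : 2 * (Real.sqrt (K * (T / B ^ 2 + T * (B / L) ^ 2)) * Real.sqrt (9 * T)) + K * (T / B ^ 2 + T * (B / L) ^ 2) ≤ (12 * Real.sqrt K + 2 * K) * e0 := by
    have h0 : T / B ^ 2 + T * (B / L) ^ 2 ≤ T * (1 / B + B / L) ^ 2 := by
      have e : T * (1 / B + B / L) ^ 2 = T / B ^ 2 + T * (B / L) ^ 2 + 2 * T * (1 / B) * (B / L) := by ring
      have : 0 ≤ 2 * T * (1 / B) * (B / L) := by positivity
      linarith
    have h1 : Real.sqrt (K * (T / B ^ 2 + T * (B / L) ^ 2)) * Real.sqrt (9 * T) ≤ 3 * Real.sqrt K * (T * (1 / B + B / L)) := by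
      rw [← Real.sqrt_mul (by positivity)]
      calc Real.sqrt (K * (T / B ^ 2 + T * (B / L) ^ 2) * (9 * T)) ≤ Real.sqrt (K * (T * (1 / B + B / L) ^ 2) * (9 * T)) := by
            apply Real.sqrt_le_sqrt
            gcongr
        _ = Real.sqrt (K * (3 * (T * (1 / B + B / L))) ^ 2) := by congr 1; ring
        _ = _ := by
            rw [Real.sqrt_mul hK.le, Real.sqrt_sq (by positivity)]
            ring
    have h2 : T * (1 / B + B / L) ≤ 2 * e0 := by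
      have e : T * (1 / B + B / L) = T / B + T * (B / L) := by ring
      linarith
    have h3 : T / B ^ 2 + T * (B / L) ^ 2 ≤ 2 * e0 := by
      have a1 : T / B ^ 2 ≤ T / B := div_le_div_of_nonneg_left hT0'.le hB0 (le_self_pow₀ (by linarith) (by norm_num))
      have a2 : T * (B / L) ^ 2 ≤ T * (B / L) := by
        apply mul_le_mul_of_nonneg_left _ hT0'.le
        rw [sq]
        exact mul_le_of_le_one_right hBL0.le hBL1
      linarith
    have hsK := Real.sqrt_nonneg K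
    calc 2 * (Real.sqrt (K * (T / B ^ 2 + T * (B / L) ^ 2)) * Real.sqrt (9 * T)) + K * (T / B ^ 2 + T * (B / L) ^ 2)
        ≤ 2 * (3 * Real.sqrt K * (2 * e0)) + K * (2 * e0) := by
          have h4 : 3 * Real.sqrt K * (T * (1 / B + B / L)) ≤ 3 * Real.sqrt K * (2 * e0) := by gcongr
          have h5 : K * (T / B ^ 2 + T * (B / L) ^ 2) ≤ K * (2 * e0) := by gcongr
          linarith
      _ = _ := by ring
  -- E2
  have hE2' : (20 * CLA * L + 2 * B) * f0 T a (T - a) (Real.sqrt T) δ ≤ T / B :=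
    E2U hL hT0' hB0 hBL hL0 haT2 (by linarith) hδ1 g8 g9 g16
  -- prime part
  have hPPc := PS_cross hX0 δ (a + |δ|) (T - a - |δ|)
  have hPPd := prime_diag hX0 δ
  set S := ∑ n ∈ Finset.range (NX X + 1), ap X n ^ 2 * Real.cos (δ * Real.log n) with hS
  have hδX : δ * X = -(2 * Real.pi * (v / B)) := by rw [hδ, hX]; field_simp
  have hJ : 4 * ∫ v' in (0:ℝ)..1, v' * (1 - v') ^ 2 * Real.cos (δ * X * v') = 2 * cS (v / B) := by
    unfold cS
    rw [hδX]
    have : ∀ v' : ℝ, Real.cos (-(2 * Real.pi * (v / B)) * v') = Real.cos (2 * Real.pi * (v / B) * v') := by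
      intro v'; rw [neg_mul, Real.cos_neg]
    simp_rw [this]
    ring
  rw [hJ] at hPPd
  have hδX2 : |δ| * X = 2 * Real.pi * |v| / B := by rw [hδabs, hX]; field_simp
  rw [hδX2] at hPPd
  have hE5 : T / 2 * (4 * (CNP + CMe * (3 + 2 * Real.pi * |v| / B)) / X) ≤ (2 * (CNP + 3 * CMe) + 16 * CMe) * e0 := by
    have e : T / 2 * (4 * (CNP + CMe * (3 + 2 * Real.pi * |v| / B)) / X) = 2 * (CNP + 3 * CMe) * (T * (B / L)) + 4 * Real.pi * CMe * (T * (|v| / L)) := by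
      rw [hX]
      field_simp
      ring
    rw [e]
    have h1 : 2 * (CNP + 3 * CMe) * (T * (B / L)) ≤ 2 * (CNP + 3 * CMe) * e0 := by gcongr
    have h2 : 4 * Real.pi * CMe * (T * (|v| / L)) ≤ 16 * CMe * e0 := by
      have h3 : 4 * Real.pi ≤ 16 := by linarith [Real.pi_lt_four]
      gcongr
    linarith
  have hab2 : a + |δ| ≤ T - a - |δ| := by linarith
  rw [intervalIntegral.integral_of_le hab2, ← integral_Icc_eq_integral_Ioc] at hPPc
  set G := ∫ t, Yf (ZT T) X t * Yf (ZT T) X (t + δ) with hG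
  set PP := ∫ t in Icc (a + |δ|) (T - a - |δ|), PS X t * PS X (t + δ) with hPP
  have hc2 := cS_abs (v / B)
  obtain ⟨w, hw⟩ : ∃ w, w = T - a - |δ| - (a + |δ|) := ⟨_, rfl⟩
  rw [← hw] at hPPc
  have hw2 : T - a - a - 2 * |δ| = w := by rw [hw]; ring
  rw [hw2] at hdet
  have hwT : T - w ≤ 4 * a := by rw [hw]; linarith
  have hwT0 : 0 ≤ T - w := by rw [hw]; linarith
  have hw0 : 0 ≤ w := by rw [hw]; linarith
  have haB : 4 * a * L ^ 2 ≤ T / B := by
    rw [le_div_iff₀ hB0]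
    calc 4 * a * L ^ 2 * B ≤ 4 * a * L ^ 2 * L := by gcongr
      _ ≤ T := ha4
  have hwS : |w / 2 * S - T * cS (v / B)| ≤ (2 * (CNP + 3 * CMe) + 16 * CMe) * e0 + e0 := by
    have e : w / 2 * S - T * cS (v / B) = w / 2 * (S - 2 * cS (v / B)) - (T - w) * cS (v / B) := by ring
    rw [e]
    refine (abs_sub _ _).trans ?_
    rw [abs_mul, abs_mul, abs_of_nonneg (by positivity : 0 ≤ w / 2), abs_of_nonneg hwT0]
    have h1 : w / 2 * |S - 2 * cS (v / B)| ≤ (2 * (CNP + 3 * CMe) + 16 * CMe) * e0 := by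
      refine le_trans ?_ hE5
      have : w ≤ T := by linarith
      have hd0 : 0 ≤ 4 * (CNP + CMe * (3 + 2 * Real.pi * |v| / B)) / X := by positivity
      gcongr
    have h2 : (T - w) * |cS (v / B)| ≤ e0 := by
      calc (T - w) * |cS (v / B)| ≤ (4 * a) * 2 := by gcongr
        _ ≤ 4 * a * L ^ 2 := by
            have : (2:ℝ) ≤ L ^ 2 := le_trans (by linarith) (le_self_pow₀ (by linarith : 1 ≤ L) (by norm_num))
            exact mul_le_mul_of_nonneg_left this (by positivity)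
        _ ≤ e0 := haB.trans he0B
    linarith
  have hBw : |B ^ 2 * (T - w)| ≤ e0 := by
    rw [abs_of_nonneg (by positivity)]
    calc B ^ 2 * (T - w) ≤ L ^ 2 * (4 * a) := by gcongr
      _ = 4 * a * L ^ 2 := by ring
      _ ≤ e0 := haB.trans he0B
  have hdens := densU (C' := C') (T := T) (L := L) (B := B) (X := X) (N := NT T) (A := AT T) (ℓ := Real.log (2 * Real.pi)) hT0' hL0 hB0 hBL hX hC'
    (Real.log_nonneg (by linarith [Real.pi_gt_three])) ell_le gN hAT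
  have hfin := combU hdet hPPc hwS hdens hBw
  refine hfin.trans ?_
  have hd2 : (2 * C' + 10) * (T * (B / L)) ≤ (2 * C' + 10) * e0 := by gcongr
  have hx1 : (12 * Real.sqrt K + 2 * K + 2 * C' + 2 * (CNP + 3 * CMe) + 16 * CMe + 20) * e0 = (12 * Real.sqrt K + 2 * K) * e0 + e0 + e0 +
    (2 * (CNP + 3 * CMe) + 16 * CMe) * e0 + (2 * C' + 10) * e0 + e0 + e0 + 6 * e0 := by ring
  rw [hx1]
  linarith

/-- The uniform kernel law, with `c = 1`. -/
theorem ULaw_holds : ∃ C : ℝ, 0 ≤ C ∧ ULaw 1 C := by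
  obtain ⟨C, hC, h⟩ := Y_corrU
  refine ⟨C, hC.le, ?_⟩
  unfold ULaw
  filter_upwards [h, eventually_ge_atTop 3] with T hT hT3 B v hB hBL hv
  rw [one_mul] at hBL
  have hT' := hT B v hB hBL hv
  have hB0 : 0 < B := by linarith
  have hLog := one_le_log hT3
  have hL0 : 0 < Real.log T := by linarith
  have hX0 : 0 < Real.log T / B := by positivity
  have hpi := Real.pi_pos
  have hT0 : 0 < T := by linarith
  rw [Yf_corr_eq T _ hX0] at hT'
  have e1 : WP T (fun u => Gm ((u - v) / B)) =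
      ∑ p ∈ Zf T ×ˢ Zf T, (mult p.1 : ℝ) * (mult p.2 : ℝ) * Gm (Real.log T / B / (2 * Real.pi) * (p.1.im - p.2.im + -(2 * Real.pi * v / Real.log T))) := by
    unfold WP
    refine Finset.sum_congr rfl fun p _ => ?_
    have e3 : (nd T p - v) / B = Real.log T / B / (2 * Real.pi) * (p.1.im - p.2.im + -(2 * Real.pi * v / Real.log T)) := by
      unfold nd
      field_simp
      ring
    simp only [e3]
  rw [e1]
  set Sg := ∑ p ∈ Zf T ×ˢ Zf T, (mult p.1 : ℝ) * (mult p.2 : ℝ) * Gm (Real.log T / B / (2 * Real.pi) * (p.1.im - p.2.im + -(2 * Real.pi * v / Real.log T)))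
  have e2 : Sg - SN T * (AT T * B + cS (v / B) / B) = (Real.log T / B / (2 * Real.pi)) * (2 * Real.pi / (Real.log T / B) * Sg - T * (AT T * B ^ 2 + cS (v / B))) := by
    unfold SN
    field_simp
  rw [e2, abs_mul, abs_of_pos (by positivity)]
  calc Real.log T / B / (2 * Real.pi) * |2 * Real.pi / (Real.log T / B) * Sg - T * (AT T * B ^ 2 + cS (v / B))|
      ≤ Real.log T / B / (2 * Real.pi) * (C * (T * (1 / B + (B + |v|) / Real.log T))) := by gcongr
    _ = C * (SN T * (1 / B ^ 2 + (1 + |v| / B) / Real.log T)) := by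
        unfold SN
        field_simp

end Pool.Agent.Helper57.US
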